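import Mathlib

/-!
# Theorem K4R: definitions for the linear algebra part

`LieData V E G`: a group `G` acts on `V` by affine maps (`a`), and the vector space `E` acts on `V` by
commuting nilpotent affine vector fields `x ↦ X ξ x + w ξ`; `G` normalises them (`ad`), preserving a
lattice `L` of `E`.
-/

set_option autoImplicit false

open Set Module
open scoped commutatorElement

namespace Pool.Agent.Helper77.K4

/-- The iterated commutator subgroups of `H`. -/
def dser {G : Type*} [Group G] (H : Subgroup G) : ℕ → Subgroup G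
  | 0 => H
  | k + 1 => ⁅dser H k, dser H k⁆

/-- The group `G` acts on the section `W₂ / W₁` through a virtually solvable group. -/
def VSec {V G : Type*} [NormedAddCommGroup V] [NormedSpace ℝ V] [Group G]
    (a : G →* (V ≃ᵃ[ℝ] V)) (W₁ W₂ : Submodule ℝ V) : Prop :=
  ∃ H : Subgroup G, H.FiniteIndex ∧ ∃ k : ℕ, ∀ h ∈ dser H k, ∀ v ∈ W₂, (a h).linear v - v ∈ W₁

/-- The subspace `W` is invariant under the linear parts of the elements of `H`. -/
def LInv {V G : Type*} [NormedAddCommGroup V] [NormedSpace ℝ V] [Group G]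
    (a : G →* (V ≃ᵃ[ℝ] V)) (H : Subgroup G) (W : Submodule ℝ V) : Prop :=
  ∀ g ∈ H, ∀ v ∈ W, (a g).linear v ∈ W

/-- The data of the linear algebra part. -/
structure LieData (V E G : Type*) [NormedAddCommGroup V] [NormedSpace ℝ V] [FiniteDimensional ℝ V]
    [NormedAddCommGroup E] [NormedSpace ℝ E] [FiniteDimensional ℝ E] [Group G] where
  /-- the affine action -/
  a : G →* (V ≃ᵃ[ℝ] V)
  /-- the action on the fields -/
  ad : G →* (E ≃ₗ[ℝ] E)
  /-- the linear part of a field -/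
  X : E →ₗ[ℝ] (V →ₗ[ℝ] V)
  /-- the constant part of a field -/
  w : E →ₗ[ℝ] V
  /-- the lattice -/
  L : Submodule ℤ E
  comm : ∀ ξ η v, X ξ (X η v) = X η (X ξ v)
  commw : ∀ ξ η, X ξ (w η) = X η (w ξ)
  nil : ∀ ξ, IsNilpotent (X ξ)
  X_ad : ∀ g ξ v, X (ad g ξ) ((a g).linear v) = (a g).linear (X ξ v)
  w_ad : ∀ g ξ, w (ad g ξ) = (a g).linear (w ξ) - X (ad g ξ) (a g 0)
  discrete : DiscreteTopology L
  lattice : IsZLattice ℝ L
  L_ad : ∀ g, ∀ l ∈ L, ad g l ∈ L
  /-- a point at which the fields are independent -/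
  x₀ : V
  free : ∀ ξ, X ξ x₀ + w ξ = 0 → ξ = 0
  /-- no proper affine subspace is invariant under a subgroup of finite index -/
  noinv : ∀ H : Subgroup G, H.FiniteIndex → ∀ Z : AffineSubspace ℝ V, (Z : Set V).Nonempty →
    (∀ g ∈ H, ∀ x ∈ Z, a g x ∈ Z) → Z = ⊤

namespace LieData

variable {V E G : Type*} [NormedAddCommGroup V] [NormedSpace ℝ V] [FiniteDimensional ℝ V]
    [NormedAddCommGroup E] [NormedSpace ℝ E] [FiniteDimensional ℝ E] [Group G]
  (D : LieData V E G)

/-- The group of the vector space `E` acts on `V/W` simply transitively by translations, and `W` is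
invariant: then `V` modulo the group of `E` is the affine space `W`. -/
def SType (H : Subgroup G) : Prop :=
  ∃ W : Submodule ℝ V, LInv D.a H W ∧ (∀ ξ v, D.X ξ v ∈ W) ∧
    Function.Bijective fun ξ => W.mkQ (D.w ξ)

/-- The orbits of the group of `E` are the cosets of the invariant subspace `W`. -/
def QType (H : Subgroup G) : Prop :=
  ∃ W : Submodule ℝ V, LInv D.a H W ∧ (∀ ξ v, D.X ξ v ∈ W) ∧ (∀ ξ, D.w ξ ∈ W) ∧
    finrank ℝ W = finrank ℝ E ∧ (∀ x ξ, D.X ξ x + D.w ξ = 0 → ξ = 0) ∧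
    ∀ g ∈ H, ∀ h : (∀ v ∈ W, ((D.a g).linear : V →ₗ[ℝ] V) v ∈ W),
      |LinearMap.det (((D.a g).linear : V →ₗ[ℝ] V).restrict h)| = 1

/-- The conclusion of the linear algebra part. -/
def Good : Prop :=
  VSec D.a ⊥ ⊤ ∨ ∃ H : Subgroup G, H.FiniteIndex ∧ (D.SType H ∨ D.QType H)

end LieData

/-! ### Virtually solvable sections -/

section vsec

variable {G : Type*} [Group G]

theorem dser_mono {H K : Subgroup G} (h : H ≤ K) (k : ℕ) : dser H k ≤ dser K k := by
  induction k with
  | zero => exact h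
  | succ k ih => exact Subgroup.commutator_mono ih ih

theorem dser_le (H : Subgroup G) (k : ℕ) : dser H k ≤ H := by
  induction k with
  | zero => exact le_rfl
  | succ k ih =>
    refine (Subgroup.commutator_mono ih ih).trans ?_
    rw [Subgroup.commutator_le]
    intro x hx y hy
    exact H.mul_mem (H.mul_mem (H.mul_mem hx hy) (H.inv_mem hx)) (H.inv_mem hy)

theorem dser_anti (H : Subgroup G) {j k : ℕ} (h : j ≤ k) : dser H k ≤ dser H j := by
  induction h with
  | refl => exact le_rfl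
  | step _ ih =>
    refine le_trans ?_ ih
    change ⁅_, _⁆ ≤ _
    rw [Subgroup.commutator_le]
    intro x hx y hy
    exact mul_mem (mul_mem (mul_mem hx hy) (inv_mem hx)) (inv_mem hy)

variable {V : Type*} [NormedAddCommGroup V] [NormedSpace ℝ V] {a : G →* (V ≃ᵃ[ℝ] V)}

theorem LInv.mono {H K : Subgroup G} (h : H ≤ K) {W : Submodule ℝ V} (hW : LInv a K W) :
    LInv a H W := fun g hg => hW g (h hg)

theorem lin_mul (g h : G) (v : V) : (a (g * h)).linear v = (a g).linear ((a h).linear v) := by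
  rw [map_mul]
  rfl

theorem lin_inv (g : G) (v : V) : (a g⁻¹).linear ((a g).linear v) = v := by
  rw [← lin_mul, inv_mul_cancel, map_one]
  rfl

theorem lin_inv' (g : G) (v : V) : (a g).linear ((a g⁻¹).linear v) = v := by
  rw [← lin_mul, mul_inv_cancel, map_one]
  rfl

/-- The elements which act trivially on `W₂ / W₁`. -/
def kerSec (a : G →* (V ≃ᵃ[ℝ] V)) (H : Subgroup G) (W₁ : Submodule ℝ V) {W₂ : Submodule ℝ V}
    (h₂ : LInv a H W₂) : Subgroup G where
  carrier := {g | g ∈ H ∧ ∀ v ∈ W₂, (a g).linear v - v ∈ W₁}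
  one_mem' := ⟨H.one_mem, fun v _ => by
    rw [map_one]
    change v - v ∈ W₁
    rw [sub_self]
    exact W₁.zero_mem⟩
  mul_mem' := by
    rintro x y ⟨hx, hx'⟩ ⟨hy, hy'⟩
    refine ⟨H.mul_mem hx hy, fun v hv => ?_⟩
    rw [lin_mul]
    have h3 := W₁.add_mem (hx' _ (h₂ y hy v hv)) (hy' v hv)
    rwa [sub_add_sub_cancel] at h3
  inv_mem' := by
    rintro x ⟨hx, hx'⟩
    refine ⟨H.inv_mem hx, fun v hv => ?_⟩
    have h3 := hx' _ (h₂ x⁻¹ (H.inv_mem hx) v hv)
    rw [lin_inv'] at h3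
    have h4 := W₁.neg_mem h3
    rwa [neg_sub] at h4

/-- (V1) Transitivity. -/
theorem VSec.trans {W₁ W₂ W₃ : Submodule ℝ V} (h₃ : LInv a ⊤ W₃) (h : VSec a W₁ W₂)
    (h' : VSec a W₂ W₃) :
    VSec a W₁ W₃ := by
  obtain ⟨H, hH, k, hk⟩ := h
  obtain ⟨H', hH', k', hk'⟩ := h'
  refine ⟨H ⊓ H', inferInstance, max k k' + 1, ?_⟩
  set N := dser (H ⊓ H') (max k k') with hN
  have hN₁ : ∀ g ∈ N, ∀ v ∈ W₂, (a g).linear v - v ∈ W₁ := fun g hg =>
    hk g (dser_anti H (le_max_left k k') (dser_mono inf_le_left _ hg))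
  have hN₂ : ∀ g ∈ N, ∀ v ∈ W₃, (a g).linear v - v ∈ W₂ := fun g hg =>
    hk' g (dser_anti H' (le_max_right k k') (dser_mono inf_le_right _ hg))
  have hcomm : ∀ x ∈ N, ∀ y ∈ N, ∀ v ∈ W₃,
      (a (x * y)).linear v - (a (y * x)).linear v ∈ W₁ := by
    intro x hx y hy v hv
    rw [lin_mul, lin_mul]
    have e1 : (a x).linear ((a y).linear v) - (a y).linear ((a x).linear v) =
        ((a x).linear ((a y).linear v - v) - ((a y).linear v - v)) -
        ((a y).linear ((a x).linear v - v) - ((a x).linear v - v)) := by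
      rw [map_sub, map_sub]
      abel
    rw [e1]
    exact W₁.sub_mem (hN₁ x hx _ (hN₂ y hy v hv)) (hN₁ y hy _ (hN₂ x hx v hv))
  have hle : dser (H ⊓ H') (max k k' + 1) ≤ kerSec a ⊤ W₁ h₃ := by
    change ⁅N, N⁆ ≤ _
    rw [Subgroup.commutator_le]
    intro x hx y hy
    refine ⟨Subgroup.mem_top _, fun v hv => ?_⟩
    have h4 : (a ⁅x, y⁆).linear v - v =
        (a (x * y)).linear ((a (y * x)⁻¹).linear v) -
        (a (y * x)).linear ((a (y * x)⁻¹).linear v) := by
      rw [lin_inv', ← lin_mul]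
      congr 3
      rw [commutatorElement_def, mul_inv_rev, mul_assoc, mul_assoc, ← mul_assoc x y]
    rw [h4]
    exact hcomm x hx y hy _ (h₃ _ (Subgroup.mem_top _) v hv)
  exact fun g hg => (hle hg).2

/-- (V2) One-dimensional sections. -/
theorem VSec.of_span {W₁ W₂ : Submodule ℝ V} (h₁ : LInv a ⊤ W₁) (h₂ : LInv a ⊤ W₂) {u : V}
    (hu : W₂ ≤ W₁ ⊔ Submodule.span ℝ {u}) : VSec a W₁ W₂ := by
  have key : ∀ g : G, ∃ c : ℝ, ∀ v ∈ W₂, (a g).linear v - c • v ∈ W₁ := by
    intro g
    by_cases hu2 : ∃ u' ∈ W₂, W₂ ≤ W₁ ⊔ Submodule.span ℝ {u'}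
    · obtain ⟨u', hu', hle'⟩ := hu2
      have h3 := hle' (h₂ g (Subgroup.mem_top _) u' hu')
      obtain ⟨y, hy, z, hz, hyz⟩ := Submodule.mem_sup.1 h3
      obtain ⟨c, rfl⟩ := Submodule.mem_span_singleton.1 hz
      refine ⟨c, fun v hv => ?_⟩
      obtain ⟨y', hy', z', hz', rfl⟩ := Submodule.mem_sup.1 (hle' hv)
      obtain ⟨d, rfl⟩ := Submodule.mem_span_singleton.1 hz'
      rw [map_add, map_smul, ← hyz]
      have e1 : (a g).linear y' + d • (y + c • u') - c • (y' + d • u') =
          (a g).linear y' + d • y - c • y' := by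
        rw [smul_add, smul_add, smul_comm c d]
        abel
      rw [e1]
      exact W₁.sub_mem (W₁.add_mem (h₁ g (Subgroup.mem_top _) y' hy') (W₁.smul_mem _ hy))
        (W₁.smul_mem _ hy')
    · -- then `W₂ = W₁`
      have h3 : W₂ ≤ W₁ := by
        intro v hv
        by_contra hvW
        apply hu2
        refine ⟨v, hv, ?_⟩
        obtain ⟨y, hy, z, hz, hyz⟩ := Submodule.mem_sup.1 (hu hv)
        obtain ⟨c, rfl⟩ := Submodule.mem_span_singleton.1 hz
        have hc : c ≠ 0 := by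
          rintro rfl
          apply hvW
          rw [← hyz, zero_smul, add_zero]
          exact hy
        refine hu.trans (sup_le le_sup_left ?_)
        rw [Submodule.span_singleton_le_iff_mem]
        have h5 : u = c⁻¹ • v - c⁻¹ • y := by
          rw [← hyz, smul_add, smul_smul, inv_mul_cancel₀ hc, one_smul]
          abel
        rw [h5]
        exact Submodule.sub_mem _ (Submodule.mem_sup_right
          (Submodule.smul_mem _ _ (Submodule.mem_span_singleton_self _)))
          (Submodule.mem_sup_left (W₁.smul_mem _ hy))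
      refine ⟨1, fun v hv => ?_⟩
      rw [one_smul]
      exact W₁.sub_mem (h₁ g (Subgroup.mem_top _) v (h3 hv)) (h3 hv)
  refine ⟨⊤, inferInstance, 1, ?_⟩
  have hle : dser (⊤ : Subgroup G) 1 ≤ kerSec a ⊤ W₁ h₂ := by
    change ⁅_, _⁆ ≤ _
    rw [Subgroup.commutator_le]
    intro x _ y _
    refine ⟨Subgroup.mem_top _, fun v hv => ?_⟩
    have h4 : (a ⁅x, y⁆).linear v - v =
        (a (x * y)).linear ((a (y * x)⁻¹).linear v) -
        (a (y * x)).linear ((a (y * x)⁻¹).linear v) := by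
      rw [lin_inv', ← lin_mul]
      congr 3
      rw [commutatorElement_def, mul_inv_rev, mul_assoc, mul_assoc, ← mul_assoc x y]
    rw [h4]
    set v' := (a (y * x)⁻¹).linear v with hv'
    have hv'2 : v' ∈ W₂ := h₂ _ (Subgroup.mem_top _) v hv
    obtain ⟨c, hc⟩ := key x
    obtain ⟨d, hd⟩ := key y
    rw [lin_mul, lin_mul]
    have e1 : (a x).linear ((a y).linear v') - (a y).linear ((a x).linear v') =
        ((a x).linear ((a y).linear v' - d • v')) + d • ((a x).linear v' - c • v') -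
        ((a y).linear ((a x).linear v' - c • v')) - c • ((a y).linear v' - d • v') := by
      rw [map_sub, map_sub, map_smul, map_smul, smul_sub, smul_sub, smul_comm c d]
      abel
    rw [e1]
    exact W₁.sub_mem (W₁.sub_mem (W₁.add_mem (h₁ x (Subgroup.mem_top _) _ (hd v' hv'2))
      (W₁.smul_mem _ (hc v' hv'2))) (h₁ y (Subgroup.mem_top _) _ (hc v' hv'2)))
      (W₁.smul_mem _ (hd v' hv'2))
  exact fun g hg => (hle hg).2

/-- (V2') One-dimensional sections, by dimension. -/
theorem VSec.of_finrank [FiniteDimensional ℝ V] {W₁ W₂ : Submodule ℝ V} (h₁ : LInv a ⊤ W₁)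
    (h₂ : LInv a ⊤ W₂) (hle : W₁ ≤ W₂) (hd : finrank ℝ W₂ ≤ finrank ℝ W₁ + 1) :
    VSec a W₁ W₂ := by
  by_cases h : W₂ ≤ W₁
  · exact VSec.of_span h₁ h₂ (u := 0) (h.trans le_sup_left)
  · obtain ⟨u, hu, huW⟩ := SetLike.not_le_iff_exists.1 h
    refine VSec.of_span h₁ h₂ (u := u) ?_
    have h3 : W₁ < W₁ ⊔ Submodule.span ℝ {u} := by
      refine lt_of_le_of_ne le_sup_left fun h4 => huW ?_
      rw [h4]
      exact Submodule.mem_sup_right (Submodule.mem_span_singleton_self _)
    have h4 := Submodule.finrank_lt_finrank_of_lt h3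
    have h5 : W₁ ⊔ Submodule.span ℝ {u} ≤ W₂ :=
      sup_le hle ((Submodule.span_singleton_le_iff_mem _ _).2 hu)
    have h6 : W₁ ⊔ Submodule.span ℝ {u} = W₂ :=
      Submodule.eq_of_le_of_finrank_le h5 (by omega)
    exact h6.symm.le

/-- (V3) -/
theorem VSec.solvable (h : VSec a ⊥ ⊤) : ∃ H : Subgroup G, H.FiniteIndex ∧ ∃ k : ℕ,
    ∀ h ∈ dser H k, a h = 1 := by
  obtain ⟨H, hH, k, hk⟩ := h
  refine ⟨H, hH, k + 1, ?_⟩
  have h1 : ∀ h ∈ dser H k, ∀ v, (a h).linear v = v := fun h hh v =>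
    sub_eq_zero.1 ((Submodule.mem_bot ℝ).1 (hk h hh v Submodule.mem_top))
  have h2 : ∀ h ∈ dser H k, ∀ v, a h v = v + a h 0 := by
    intro h hh v
    have h3 := (a h).map_vadd 0 v
    rw [vadd_eq_add, vadd_eq_add, add_zero, h1 h hh] at h3
    exact h3
  have hle : dser H (k + 1) ≤ a.ker := by
    change ⁅_, _⁆ ≤ _
    rw [Subgroup.commutator_le]
    intro x hx y hy
    rw [MonoidHom.mem_ker, map_commutatorElement, commutatorElement_eq_one_iff_commute]
    apply AffineEquiv.ext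
    intro v
    change a x (a y v) = a y (a x v)
    rw [h2 x hx (a y v), h2 y hy v, h2 y hy (a x v), h2 x hx v]
    abel
  exact fun h hh => hle hh

/-- (V6) Subgroups of finite index. -/
theorem VSec.of_subgroup {H : Subgroup G} (hH : H.FiniteIndex) {W₁ W₂ : Submodule ℝ V}
    (h : VSec (a.comp H.subtype) W₁ W₂) : VSec a W₁ W₂ := by
  obtain ⟨K, hK, k, hk⟩ := h
  refine ⟨K.map H.subtype, ?_, k, ?_⟩
  · refine ⟨?_⟩
    rw [Subgroup.index_map_subtype]
    exact mul_ne_zero hK.index_ne_zero hH.index_ne_zero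
  · have h1 : ∀ j, dser (K.map H.subtype) j = (dser K j).map H.subtype := by
      intro j
      induction j with
      | zero => rfl
      | succ j ih =>
        change ⁅_, _⁆ = _
        rw [ih, ← Subgroup.map_commutator]
        rfl
    intro g hg
    rw [h1] at hg
    obtain ⟨g', hg', rfl⟩ := hg
    exact hk g' hg'

end vsec

end Pool.Agent.Helper77.K4
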