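import Pool.Agent.SOL.Section
import Pool.Agent.SOL.Lift

/-!
# Exponentials of nilpotent affine vector fields
-/

set_option autoImplicit false

open Set Module

namespace Pool.Agent.Helper77.K4

open Pool.Agent.SOL

section general

variable {A : Type*} [NormedRing A] [NormedAlgebra ℝ A] [FiniteDimensional ℝ A]

theorem exp_add_comm {x y : A} (h : Commute x y) :
    NormedSpace.exp (x + y) = NormedSpace.exp x * NormedSpace.exp y := by
  have : CompleteSpace A := FiniteDimensional.complete ℝ A
  let _ : NormedAlgebra ℚ A := NormedAlgebra.restrictScalars ℚ ℝ A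
  exact NormedSpace.exp_add_of_commute h

theorem continuous_exp : Continuous (NormedSpace.exp : A → A) := by
  have : CompleteSpace A := FiniteDimensional.complete ℝ A
  let _ : NormedAlgebra ℚ A := NormedAlgebra.restrictScalars ℚ ℝ A
  exact NormedSpace.exp_continuous

/-- The exponential series of a nilpotent element, with two more terms. -/
theorem exp_eq_sum' {X : A} (hX : IsNilpotent X) : NormedSpace.exp X =
    ∑ j ∈ Finset.range (finrank ℝ A + 2), ((j.factorial : ℝ))⁻¹ • X ^ j := by
  have h1 := exp_eq_sum hX 1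
  rw [one_smul] at h1
  rw [h1]
  have h2 : ∀ j, finrank ℝ A ≤ j → X ^ j = 0 := by
    intro j hj
    rw [← Nat.sub_add_cancel hj, pow_add, pow_finrank_eq_zero hX, mul_zero]
  rw [Finset.sum_range_succ, Finset.sum_range_succ, h2 _ le_rfl, h2 _ (Nat.le_succ _), smul_zero,
    smul_zero, add_zero, add_zero]
  exact Finset.sum_congr rfl fun j _ => by rw [one_pow, one_mul]

theorem exp_one_add {X : A} (hX : IsNilpotent X) : NormedSpace.exp X =
    (∑ j ∈ Finset.range (finrank ℝ A), (((j + 2).factorial : ℝ))⁻¹ • X ^ (j + 2)) + X + 1 := by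
  rw [exp_eq_sum' hX, Finset.sum_range_succ', Finset.sum_range_succ']
  simp

theorem commute_ulog {u v : A} (h : Commute u v) : Commute (ulog u) (ulog v) := by
  have h1 : Commute (u - 1) (v - 1) :=
    (h.sub_left (Commute.one_left v)).sub_right (Commute.one_right _)
  refine Commute.sum_left _ _ _ fun i _ => Commute.sum_right _ _ _ fun j _ => ?_
  exact ((h1.pow_pow _ _).smul_left _).smul_right _

theorem conj_pow (g : Aˣ) (u : A) (n : ℕ) :
    (g : A) * u ^ n * ((g⁻¹ : Aˣ) : A) = ((g : A) * u * ((g⁻¹ : Aˣ) : A)) ^ n := by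
  induction n with
  | zero => rw [pow_zero, pow_zero, mul_one, Units.mul_inv]
  | succ n ih =>
    rw [pow_succ, pow_succ, ← ih]
    have h : ((g⁻¹ : Aˣ) : A) * ((g : A) * u * ((g⁻¹ : Aˣ) : A)) = u * ((g⁻¹ : Aˣ) : A) := by
      rw [mul_assoc, ← mul_assoc, Units.inv_mul, one_mul]
    rw [mul_assoc _ _ ((g : A) * u * ((g⁻¹ : Aˣ) : A)), h]
    simp only [mul_assoc]

theorem conj_ulog (g : Aˣ) (u : A) :
    (g : A) * ulog u * ((g⁻¹ : Aˣ) : A) = ulog ((g : A) * u * ((g⁻¹ : Aˣ) : A)) := by
  have h : (g : A) * u * ((g⁻¹ : Aˣ) : A) - 1 = (g : A) * (u - 1) * ((g⁻¹ : Aˣ) : A) := by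
    rw [mul_sub, mul_one, sub_mul, Units.mul_inv]
  rw [ulog, ulog, Finset.mul_sum, Finset.sum_mul]
  refine Finset.sum_congr rfl fun j _ => ?_
  rw [mul_smul_comm, smul_mul_assoc, conj_pow, h]

end general

/-- The determinant of a unipotent map is one. -/
theorem det_eq_one_of_nilpotent {V : Type*} [AddCommGroup V] [Module ℝ V] [FiniteDimensional ℝ V]
    {f : V →ₗ[ℝ] V} (hf : IsNilpotent (f - 1)) : LinearMap.det f = 1 := by
  have h1 : IsNilpotent (1 - f) := by
    rw [← neg_sub]
    exact hf.neg
  have h2 := LinearMap.eval_charpoly (1 - f) (1 : ℝ)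
  rw [h1.charpoly_eq_X_pow_finrank, map_one, sub_sub_cancel] at h2
  rw [← h2]
  simp

section aff

variable {V : Type*} [NormedAddCommGroup V] [NormedSpace ℝ V]

/-- The endomorphism `x` of `V × ℝ` is an affine vector field. -/
def IsField (x : EndE V) : Prop := ∀ y, (x y).2 = 0

theorem IsField.add {x y : EndE V} (hx : IsField x) (hy : IsField y) : IsField (x + y) := fun z => by
  change (x z).2 + (y z).2 = 0
  rw [hx, hy, add_zero]

theorem IsField.smul {x : EndE V} (hx : IsField x) (c : ℝ) : IsField (c • x) := fun z => by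
  change c * (x z).2 = 0
  rw [hx, mul_zero]

theorem IsField.mul {x : EndE V} (hx : IsField x) (y : EndE V) : IsField (x * y) := fun z => hx _

theorem isField_zero : IsField (0 : EndE V) := fun _ => rfl

theorem IsField.pow {x : EndE V} (hx : IsField x) (n : ℕ) : IsField (x ^ (n + 1)) := by
  rw [pow_succ']
  exact hx.mul _

theorem isField_sum {ι : Type*} (s : Finset ι) {f : ι → EndE V} (h : ∀ i ∈ s, IsField (f i)) :
    IsField (∑ i ∈ s, f i) := by
  classical
  induction s using Finset.induction_on with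
  | empty =>
    rw [Finset.sum_empty]
    exact isField_zero
  | insert i s hi ih =>
    rw [Finset.sum_insert hi]
    exact (h i (Finset.mem_insert_self i s)).add (ih fun j hj => h j (Finset.mem_insert_of_mem hj))

theorem isField_sub_one {a : EndE V} (ha : IsAff a) : IsField (a - 1) := fun y => by
  change (a y).2 - y.2 = 0
  rw [ha, sub_self]

variable [FiniteDimensional ℝ V]

theorem isField_ulog {a : EndE V} (ha : IsAff a) : IsField (ulog a) :=
  isField_sum _ fun j _ => ((isField_sub_one ha).pow j).smul _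

theorem isAff_exp {x : EndE V} (hx : IsField x) (hn : IsNilpotent x) : IsAff (NormedSpace.exp x) := by
  intro y
  have h1 : IsField (NormedSpace.exp x - 1) := by
    rw [exp_one_add hn, add_sub_cancel_right]
    exact (isField_sum _ fun j _ => (hx.pow (j + 1)).smul _).add hx
  have h2 := h1 y
  change (NormedSpace.exp x y).2 - y.2 = 0 at h2
  exact sub_eq_zero.1 h2

/-- The exponential as a unit. -/
noncomputable def expU (x : EndE V) : (EndE V)ˣ where
  val := NormedSpace.exp x
  inv := NormedSpace.exp (-x)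
  val_inv := by
    rw [← exp_add_comm (Commute.neg_right (Commute.refl x)), add_neg_cancel, NormedSpace.exp_zero]
  inv_val := by
    rw [← exp_add_comm (Commute.neg_left (Commute.refl x)), neg_add_cancel, NormedSpace.exp_zero]

/-- The affine automorphism given by the flow of a nilpotent affine vector field. -/
noncomputable def flow (x : EndE V) (hx : IsField x) (hn : IsNilpotent x) : V ≃ᵃ[ℝ] V :=
  Trans.toAff ⟨expU x, isAff_exp hx hn⟩

theorem flow_apply {x : EndE V} (hx : IsField x) (hn : IsNilpotent x) (v : V) :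
    flow x hx hn v = (NormedSpace.exp x (v, 1)).1 := rfl

theorem flow_linear {x : EndE V} (hx : IsField x) (hn : IsNilpotent x) (v : V) :
    (flow x hx hn).linear v = (NormedSpace.exp x (v, 0)).1 := rfl

theorem flow_zero : flow (0 : EndE V) isField_zero IsNilpotent.zero = 1 := by
  apply AffineEquiv.ext
  intro v
  rw [flow_apply, NormedSpace.exp_zero]
  rfl

theorem flow_add {x y : EndE V} (h : Commute x y) (hx : IsField x) (hn : IsNilpotent x)
    (hy : IsField y) (hm : IsNilpotent y) :
    flow (x + y) (hx.add hy) (h.isNilpotent_add hn hm) = flow x hx hn * flow y hy hm := by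
  rw [flow, flow, flow, ← map_mul]
  congr 1
  exact Subtype.ext (Units.ext (exp_add_comm h))

theorem liftA_toAff (u : Trans.affU V) : liftA (Trans.toAff u) = (u.1 : EndE V) := by
  refine ContinuousLinearMap.ext fun y => ?_
  rw [liftA_apply]
  have h1 : y = (y.1, 0) + y.2 • ((0 : V), (1 : ℝ)) := by
    ext
    · simp
    · simp
  conv_rhs => rw [h1]
  rw [map_add, map_smul]
  have h2 : (u.1 : EndE V) (y.1, 0) = (linA (u.1 : EndE V) y.1, 0) := Trans.app_zero u.2 _
  have h3 : (u.1 : EndE V) (0, 1) = (act (u.1 : EndE V) 0, 1) := Trans.app_one u.2 _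
  rw [h2, h3]
  ext
  · rfl
  · simp

theorem liftA_flow {x : EndE V} (hx : IsField x) (hn : IsNilpotent x) :
    liftA (flow x hx hn) = NormedSpace.exp x := liftA_toAff _

theorem liftA_injective : Function.Injective (liftA : (V ≃ᵃ[ℝ] V) → EndE V) := by
  intro f g h
  apply AffineEquiv.ext
  intro v
  rw [← act_liftA f, ← act_liftA g, h]

/-- The flow of the logarithm. -/
theorem flow_ulog {f : V ≃ᵃ[ℝ] V} (hf : IsNilpotent (liftA f - 1)) :
    flow (ulog (liftA f)) (isField_ulog (isAff_liftA f)) (isNilpotent_ulog hf) = f := by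
  apply liftA_injective
  rw [liftA_flow, exp_ulog hf]

/-- If the second and higher powers of the field have values in `S` on `y` then the flow is the field
up to `S`. -/
theorem exp_sub_mem {x : EndE V} (hn : IsNilpotent x) {S : Submodule ℝ (V × ℝ)} {y : V × ℝ}
    (hS : ∀ z ∈ S, x z ∈ S) (hy : x (x y) ∈ S) : NormedSpace.exp x y - y - x y ∈ S := by
  rw [exp_one_add hn]
  have h1 : ∀ j : ℕ, (x ^ (j + 2)) y ∈ S := by
    intro j
    induction j with
    | zero =>
      rw [zero_add, pow_two]
      exact hy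
    | succ j ih =>
      have h2 : (x ^ (j + 1 + 2)) y = x ((x ^ (j + 2)) y) := by
        rw [show j + 1 + 2 = (j + 2) + 1 from rfl, pow_succ']
        rfl
      rw [h2]
      exact hS _ ih
  have h3 : (∑ j ∈ Finset.range (finrank ℝ (EndE V)), (((j + 2).factorial : ℝ))⁻¹ • x ^ (j + 2) +
      x + 1) y - y - x y = ∑ j ∈ Finset.range (finrank ℝ (EndE V)),
      (((j + 2).factorial : ℝ))⁻¹ • (x ^ (j + 2)) y := by
    rw [ContinuousLinearMap.add_apply, ContinuousLinearMap.add_apply, ContinuousLinearMap.sum_apply]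
    have h4 : (1 : EndE V) y = y := rfl
    rw [h4]
    simp only [ContinuousLinearMap.smul_apply]
    abel
  rw [h3]
  exact Submodule.sum_mem _ fun j _ => Submodule.smul_mem _ _ (h1 j)

/-- The flow preserves the volume. -/
theorem det_flow {x : EndE V} (hx : IsField x) (hn : IsNilpotent x) :
    LinearMap.det ((flow x hx hn).linear : V →ₗ[ℝ] V) = 1 := by
  apply det_eq_one_of_nilpotent
  obtain ⟨n, h2⟩ := isNilpotent_exp_sub_one hn
  refine ⟨n, ?_⟩
  have h3 : ∀ (m : ℕ) (v : V), (((flow x hx hn).linear : V →ₗ[ℝ] V) - 1 : V →ₗ[ℝ] V) ^ m • v =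
      (((NormedSpace.exp x - 1) ^ m) (v, 0)).1 ∧ (((NormedSpace.exp x - 1) ^ m) (v, 0)).2 = 0 := by
    intro m
    induction m with
    | zero =>
      intro v
      exact ⟨rfl, rfl⟩
    | succ m ih =>
      intro v
      have h4 : ((NormedSpace.exp x - 1) ^ (m + 1)) (v, 0) = (NormedSpace.exp x - 1)
          (((NormedSpace.exp x - 1) ^ m) (v, 0)) := by
        rw [pow_succ']
        rfl
      obtain ⟨h5, h6⟩ := ih v
      set z := ((NormedSpace.exp x - 1) ^ m) (v, 0) with hz
      have h7 : z = (z.1, 0) := Prod.ext rfl h6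
      rw [h4]
      constructor
      · rw [pow_succ', mul_smul, h5]
        change (flow x hx hn).linear z.1 - z.1 = _
        rw [flow_linear, h7]
        rfl
      · have h8 := isField_sub_one (isAff_exp hx hn) z
        exact h8
  apply LinearMap.ext
  intro v
  have h4 := (h3 n v).1
  rw [h2] at h4
  exact h4

end aff

end Pool.Agent.Helper77.K4
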