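import Pool.Agent.Helper77.K4.Types

/-!
# Subgroups of finite index
-/

set_option autoImplicit false

open Set Module

namespace Pool.Agent.Helper77.K4

open Pool.Agent.Helper77.KT

section grp

variable {G : Type*} [Group G]

/-- Representatives for a subgroup of finite index. -/
theorem exists_reps {H Γ : Subgroup G} (h : (H.subgroupOf Γ).FiniteIndex) :
    ∃ T : Set G, T.Finite ∧ T ⊆ Γ ∧ ∀ γ ∈ Γ, ∃ t ∈ T, t * γ ∈ H := by
  have : Finite (Γ ⧸ H.subgroupOf Γ) := Subgroup.finite_quotient_of_finiteIndex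
  refine ⟨range fun q : Γ ⧸ H.subgroupOf Γ => ((q.out : Γ)⁻¹ : G), finite_range _, ?_, ?_⟩
  · rintro _ ⟨q, rfl⟩
    exact Γ.inv_mem (q.out : Γ).2
  · intro γ hγ
    refine ⟨_, ⟨QuotientGroup.mk ⟨γ, hγ⟩, rfl⟩, ?_⟩
    have h1 : (QuotientGroup.mk (QuotientGroup.mk (s := H.subgroupOf Γ) ⟨γ, hγ⟩).out :
        Γ ⧸ H.subgroupOf Γ) = QuotientGroup.mk ⟨γ, hγ⟩ := QuotientGroup.out_eq' _
    rw [QuotientGroup.eq] at h1
    exact h1

/-- A finite set of representatives gives finite index. -/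
theorem finiteIndex_of_reps {H Γ : Subgroup G} {T : Set G} (hT : T.Finite)
    (h : ∀ γ ∈ Γ, ∃ t ∈ T, t * γ ∈ H) : (H.subgroupOf Γ).FiniteIndex := by
  have hfin : Finite (Γ ⧸ H.subgroupOf Γ) := by
    have : Finite T := hT
    have h1 : ∀ q : Γ ⧸ H.subgroupOf Γ, ∃ t : T, (t : G) * (q.out : Γ) ∈ H := fun q => by
      obtain ⟨t, ht, htq⟩ := h _ (q.out : Γ).2
      exact ⟨⟨t, ht⟩, htq⟩
    choose f hf using h1
    refine Finite.of_injective f fun q q' hqq => ?_
    have h2 := hf q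
    have h3 := hf q'
    rw [hqq] at h2
    have h4 := H.mul_mem (H.inv_mem h2) h3
    rw [← QuotientGroup.out_eq' q, ← QuotientGroup.out_eq' q', QuotientGroup.eq]
    change ((q.out : Γ) : G)⁻¹ * (q'.out : Γ) ∈ H
    have h5 : ((f q' : G) * ((q.out : Γ) : G))⁻¹ * ((f q' : G) * ((q'.out : Γ) : G)) =
        ((q.out : Γ) : G)⁻¹ * (q'.out : Γ) := by group
    rwa [h5] at h4
  exact Subgroup.finiteIndex_of_finite_quotient

theorem subgroupOf_map_subtype' {Γ : Subgroup G} (K : Subgroup Γ) :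
    (K.map Γ.subtype).subgroupOf Γ = K :=
  Subgroup.comap_map_eq_self_of_injective Γ.subtype_injective K

end grp

variable {V : Type*} [NormedAddCommGroup V] [NormedSpace ℝ V]

/-- Kleinian data for a subgroup of finite index. -/
theorem _root_.Pool.Agent.Helper77.KT.Klein.of_finiteIndex [FiniteDimensional ℝ V]
    {Γ Γ' : Subgroup (V ≃ᵃ[ℝ] V)} {Ω : Set V}
    (H : Klein Γ Ω) (hle : Γ' ≤ Γ) (hfi : (Γ'.subgroupOf Γ).FiniteIndex) : Klein Γ' Ω where
  isOpen := H.isOpen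
  conn := H.conn
  inv γ hγ := H.inv γ (hle hγ)
  vol γ hγ := H.vol γ (hle hγ)
  proper K hK hKc := (H.proper K hK hKc).subset fun γ hγ => ⟨hle hγ.1, hγ.2⟩
  cocompact := by
    obtain ⟨K, hK, hKc, hcov⟩ := H.cocompact
    obtain ⟨T, hT, hTΓ, hrep⟩ := exists_reps hfi
    refine ⟨⋃ t ∈ T, (fun x => t x) '' K, ?_, ?_, ?_⟩
    · refine iUnion₂_subset fun t ht => ?_
      rintro _ ⟨x, hx, rfl⟩
      exact H.inv t (hTΓ ht) x (hK hx)
    · exact hT.isCompact_biUnion fun t _ => hKc.image t.continuous_of_finiteDimensional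
    · intro x hx
      obtain ⟨γ, hγ, hγx⟩ := hcov x hx
      obtain ⟨t, ht, htγ⟩ := hrep γ hγ
      exact ⟨t * γ, htγ, mem_biUnion ht ⟨γ x, hγx, rfl⟩⟩

/-- The lattice of a vector group for a subgroup of finite index. -/
noncomputable def VecAct.restrict {Γ : Subgroup (V ≃ᵃ[ℝ] V)} {E : Type*} [NormedAddCommGroup E]
    [NormedSpace ℝ E] (A : VecAct Γ E) {Γ' : Subgroup (V ≃ᵃ[ℝ] V)} (hle : Γ' ≤ Γ)
    (hfi : (Γ'.subgroupOf Γ).FiniteIndex) : VecAct Γ' E where
  e := A.e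
  e_add := A.e_add
  cont := A.cont
  L :=
    { carrier := {l | l ∈ A.L ∧ A.e l ∈ Γ'}
      zero_mem' := ⟨A.L.zero_mem, by rw [A.e_zero]; exact Γ'.one_mem⟩
      add_mem' := by
        rintro a b ⟨ha, ha'⟩ ⟨hb, hb'⟩
        exact ⟨A.L.add_mem ha hb, by rw [A.e_add]; exact Γ'.mul_mem ha' hb'⟩
      smul_mem' := by
        rintro c a ⟨ha, ha'⟩
        refine ⟨A.L.smul_mem c ha, ?_⟩
        have h1 : ∀ n : ℕ, A.e (n • a) ∈ Γ' := by
          intro n
          induction n with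
          | zero =>
            rw [zero_smul, A.e_zero]
            exact Γ'.one_mem
          | succ n ih =>
            rw [succ_nsmul, A.e_add]
            exact Γ'.mul_mem ih ha'
        rcases Int.eq_nat_or_neg c with ⟨n, rfl | rfl⟩
        · rw [natCast_zsmul]
          exact h1 n
        · rw [neg_smul, natCast_zsmul, A.e_neg]
          exact Γ'.inv_mem (h1 n) }
  span := by
    rw [← top_le_iff, ← A.span, Submodule.span_le]
    intro l hl
    obtain ⟨n, hn, -, hn'⟩ := Subgroup.exists_pow_mem_of_index_ne_zero hfi.index_ne_zero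
      (⟨A.e l, A.mem l hl⟩ : Γ)
    have h1 : ∀ m : ℕ, A.e (m • l) = A.e l ^ m := by
      intro m
      induction m with
      | zero => rw [zero_smul, A.e_zero, pow_zero]
      | succ m ih => rw [succ_nsmul, A.e_add, ih, pow_succ]
    have h2 : n • l ∈ ({l | l ∈ A.L ∧ A.e l ∈ Γ'} : Set E) := by
      refine ⟨A.L.smul_of_tower_mem n hl, ?_⟩
      rw [h1]
      exact hn'
    have h3 : l = ((n : ℝ)⁻¹) • (n • l) := by
      rw [← Nat.cast_smul_eq_nsmul ℝ, smul_smul, inv_mul_cancel₀ (Nat.cast_ne_zero.2 hn.ne'),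
        one_smul]
    rw [SetLike.mem_coe, h3]
    exact Submodule.smul_mem _ _ (Submodule.subset_span h2)
  mem l hl := hl.2
  inj l hl := A.inj l hl.1
  ad := A.ad.comp (Subgroup.inclusion hle)
  e_ad γ ξ := A.e_ad _ ξ
  L_ad γ l hl := ⟨A.L_ad _ l hl.1, by
    change A.e (A.ad (Subgroup.inclusion hle γ) l) ∈ Γ'
    rw [A.e_ad]
    exact Γ'.mul_mem (Γ'.mul_mem γ.2 hl.2) (Γ'.inv_mem γ.2)⟩

end Pool.Agent.Helper77.K4
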