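import Pool.Agent.Helper77.K4.Open
import Pool.Agent.Helper1.K4.M1
import Pool.Agent.Helper1.K4.LA3ii
import Pool.Agent.Helper14.K4.LA3i
import Pool.Agent.Helper14.K4.LA2L
import Pool.Agent.Helper65.K4.M3
import Pool.Agent.Helper75.K4.M2
import Pool.Agent.Helper75.K4.M10
import Pool.Agent.Helper78.K4.LA1
import Pool.Agent.Helper78.K4.LA2T
import Pool.Agent.Helper94.K4.LA2N

/-!
# Dimension four
-/

set_option autoImplicit false

open Set Module

namespace Pool.Agent.Helper77.K4

open Pool.Agent.SOL Pool.Agent.Helper77.KT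

variable {V : Type*} [NormedAddCommGroup V] [NormedSpace ℝ V] [FiniteDimensional ℝ V]

/-- The conclusion of the linear algebra part. -/
theorem LieData.good {E G : Type*} [NormedAddCommGroup E] [NormedSpace ℝ E]
    [FiniteDimensional ℝ E] [Group G] (D : LieData V E G) (hV : finrank ℝ V = 4)
    (h1 : 1 ≤ finrank ℝ E) (h3 : finrank ℝ E ≤ 3) : D.Good := by
  have hcase : finrank ℝ E = 1 ∨ finrank ℝ E = 2 ∨ finrank ℝ E = 3 := by omega
  rcases hcase with hE | hE | hE
  · exact D.good_one hV hE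
  · by_cases hT : ∃ ζ : E, ζ ≠ 0 ∧ D.X ζ = 0
    · exact good_two_T D hV hE hT
    · push_neg at hT
      have hX : ∀ ζ : E, D.X ζ = 0 → ζ = 0 := fun ζ h => by
        by_contra hne
        exact hT ζ hne h
      by_cases hno : ∃ H : Subgroup G, H.FiniteIndex ∧ ∃ ζ : E, ζ ≠ 0 ∧
          ∀ g ∈ H, D.ad g ζ ∈ Submodule.span ℝ {ζ}
      · obtain ⟨H, hH, ζ, hζ, hl⟩ := hno
        exact D.good_of_restrict hH (Or.inl (Helper14.K4.vsec_two_line (D.restrict H hH) hV hE hX hζ
          fun g => hl g g.2))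
      · exact (Helper94.K4.two_noline D hV hE hX hno).elim
  · have h4 : 3 ≤ finrank ℝ (D.I ⊔ LinearMap.range D.w : Submodule ℝ V) := by
      let T : E →ₗ[ℝ] (D.I ⊔ LinearMap.range D.w : Submodule ℝ V) :=
        { toFun := fun ξ => ⟨D.X ξ D.x₀ + D.w ξ,
            Submodule.add_mem_sup (D.X_mem_I ξ D.x₀) ⟨ξ, rfl⟩⟩
          map_add' := fun ξ η => by
            apply Subtype.ext
            change D.X (ξ + η) D.x₀ + D.w (ξ + η) = (D.X ξ D.x₀ + D.w ξ) + (D.X η D.x₀ + D.w η)
            rw [map_add, map_add, LinearMap.add_apply]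
            abel
          map_smul' := fun c ξ => by
            apply Subtype.ext
            change D.X (c • ξ) D.x₀ + D.w (c • ξ) = c • (D.X ξ D.x₀ + D.w ξ)
            rw [map_smul, map_smul, LinearMap.smul_apply, smul_add] }
      have hinj : Function.Injective T := by
        rw [injective_iff_map_eq_zero]
        intro ξ hξ
        exact D.free ξ (congrArg Subtype.val hξ)
      have h5 := LinearMap.finrank_le_finrank_of_injective hinj
      omega
    have h5 : finrank ℝ (D.I ⊔ LinearMap.range D.w : Submodule ℝ V) ≤ finrank ℝ V :=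
      Submodule.finrank_le _
    rcases Nat.lt_or_ge 3 (finrank ℝ (D.I ⊔ LinearMap.range D.w : Submodule ℝ V)) with h | h
    · refine Helper1.K4.good_three_ii D hV hE (Submodule.eq_top_of_finrank_eq ?_)
      omega
    · exact Helper14.K4.good_three_i D hV hE (le_antisymm h h4)

/-- Kleinian data in dimension four with an abelian normal subgroup. -/
theorem univ_of_abelian {G A : Subgroup (V ≃ᵃ[ℝ] V)} {Ω : Set V} (H : Klein G Ω)
    (htf : ∀ γ ∈ G, ∀ k : ℕ, 0 < k → γ ^ k = 1 → γ = 1) (hA : A ≤ G)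
    (hnorm : ∀ g ∈ G, ∀ s ∈ A, g * s * g⁻¹ ∈ A) (hcomm : ∀ s ∈ A, ∀ t ∈ A, s * t = t * s)
    (hne : A ≠ ⊥) (hV : finrank ℝ V = 4) : Ω = univ := by
  have hinv : ∀ K : Subgroup G, K.FiniteIndex → ∀ Z : AffineSubspace ℝ V, (Z : Set V).Nonempty →
      (∀ g ∈ K, ∀ x ∈ Z, (g : V ≃ᵃ[ℝ] V) x ∈ Z) → Z = ⊤ := by
    intro K hK Z hZ h
    have hle : K.map G.subtype ≤ G := Subgroup.map_subtype_le K
    have hfi : ((K.map G.subtype).subgroupOf G).FiniteIndex := by
      rwa [subgroupOf_map_subtype']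
    refine Helper75.K4.m2 (H.of_finiteIndex hle hfi) (fun γ hγ => htf γ (hle hγ)) Z hZ ?_
    rintro _ ⟨g, hg, rfl⟩ x hx
    exact h g hg x hx
  have U : UNormal G A :=
    { le := hA
      norm := hnorm
      comm := hcomm
      nil := Helper65.K4.m3 hA hnorm hcomm fun Z hZ h => Helper75.K4.m2 H htf Z hZ h }
  obtain ⟨x₀, hx₀⟩ := H.conn.nonempty
  have h1 : 1 ≤ finrank ℝ (hullE A) := by
    rw [Nat.one_le_iff_ne_zero]
    intro h0
    apply hne
    rw [eq_bot_iff]
    intro s hs
    have h2 : (⟨ulog (liftA s), Submodule.subset_span ⟨s, hs, rfl⟩⟩ : hullE A) = 0 := by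
      have h3 : Subsingleton (hullE A) := finrank_zero_iff.1 h0
      exact Subsingleton.elim _ _
    have h4 : U.fl ⟨ulog (liftA s), Submodule.subset_span ⟨s, hs, rfl⟩⟩ = s :=
      flow_ulog (U.nil s hs)
    rw [h2, U.fl_zero] at h4
    rw [Subgroup.mem_bot]
    exact h4.symm
  have h4 : finrank ℝ (hullE A) ≤ 4 := by
    rw [← hV]
    let T : hullE A →ₗ[ℝ] V :=
      { toFun := fun ξ => UNormal.linE (ξ : EndE V) x₀ + UNormal.conE (ξ : EndE V)
        map_add' := fun ξ η => by
          change UNormal.linE ((ξ : EndE V) + (η : EndE V)) x₀ + UNormal.conE ((ξ : EndE V) + (η : EndE V)) = _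
          rw [map_add, map_add, LinearMap.add_apply]
          abel
        map_smul' := fun c ξ => by
          change UNormal.linE (c • (ξ : EndE V)) x₀ + UNormal.conE (c • (ξ : EndE V)) =
            c • (UNormal.linE (ξ : EndE V) x₀ + UNormal.conE (ξ : EndE V))
          rw [map_smul, map_smul, LinearMap.smul_apply, smul_add] }
    have hinj : Function.Injective T := by
      rw [injective_iff_map_eq_zero]
      intro ξ hξ
      exact U.indep H hx₀ hξ
    exact LinearMap.finrank_le_finrank_of_injective hinj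
  rcases Nat.lt_or_ge (finrank ℝ (hullE A)) 4 with h | h
  · rcases (U.lieData H hinv).good hV h1 (by omega) with h5 | ⟨K, hK, h5 | h5⟩
    · exact Helper75.K4.m10 H htf (solvable_of_vsec h5)
    · exact U.univ_of_sType H hinv hK hV h1 h5
    · exact U.univ_of_qType H hinv hK hV h1 h5
  · have h5 := U.finiteIndex_of_finrank H (by omega)
    refine Helper75.K4.m10 H htf ⟨A.subgroupOf G, h5, 1, dser_one_eq_bot ?_⟩
    intro x hx y hy
    exact Subtype.ext (hcomm x hx y hy)

/-- Kleinian data in dimension four with an infinite solvable normal subgroup of a subgroup of finite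
index. -/
theorem univ_of_solvable {Γ H S : Subgroup (V ≃ᵃ[ℝ] V)} {Ω : Set V} (K : Klein Γ Ω)
    (hH : H ≤ Γ) (hfi : (H.subgroupOf Γ).FiniteIndex) (hS : S ≤ H)
    (hnorm : ∀ h ∈ H, ∀ s ∈ S, h * s * h⁻¹ ∈ S) (hsol : ∃ k, dser S k = ⊥)
    (hinf : (S : Set (V ≃ᵃ[ℝ] V)).Infinite) (hV : finrank ℝ V = 4) : Ω = univ := by
  obtain ⟨G, A, hG, hGfi, htf, hA, hAn, hAc, hAne⟩ :=
    Helper1.K4.m1 Γ K.fg H S hH hfi hS hnorm hsol hinf
  exact univ_of_abelian (K.of_finiteIndex hG hGfi) htf hA hAn hAc hAne hV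

end Pool.Agent.Helper77.K4
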