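import Pool.Agent.Helper77.K4.Defs

/-!
# Basic facts on `LieData`
-/

set_option autoImplicit false

open Set Module
open scoped commutatorElement

namespace Pool.Agent.Helper77.K4

section

variable {V G : Type*} [NormedAddCommGroup V] [NormedSpace ℝ V] [Group G]
  {a : G →* (V ≃ᵃ[ℝ] V)}

/-- `a g x = A x + a g 0` -/
theorem act_apply (g : G) (x : V) : a g x = (a g).linear x + a g 0 := by
  have h3 := (a g).map_vadd 0 x
  rwa [vadd_eq_add, vadd_eq_add, add_zero] at h3

theorem act_add (g : G) (x v : V) : a g (x + v) = a g x + (a g).linear v := by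
  rw [act_apply g (x + v), act_apply g x, map_add]
  abel

theorem act_sub (g : G) (x y : V) : a g x - a g y = (a g).linear (x - y) := by
  rw [act_apply g x, act_apply g y, map_sub]
  abel

theorem lin_inj (g : G) {x y : V} (h : (a g).linear x = (a g).linear y) : x = y :=
  (a g).linear.injective h

theorem LInv.sup {H : Subgroup G} {W W' : Submodule ℝ V} (h : LInv a H W) (h' : LInv a H W') :
    LInv a H (W ⊔ W') := by
  intro g hg v hv
  obtain ⟨x, hx, y, hy, rfl⟩ := Submodule.mem_sup.1 hv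
  rw [map_add]
  exact Submodule.add_mem_sup (h g hg x hx) (h' g hg y hy)

theorem LInv.inf {H : Subgroup G} {W W' : Submodule ℝ V} (h : LInv a H W) (h' : LInv a H W') :
    LInv a H (W ⊓ W') := fun g hg v hv => ⟨h g hg v hv.1, h' g hg v hv.2⟩

theorem LInv.bot {H : Subgroup G} : LInv a H ⊥ := by
  intro g _ v hv
  rw [(Submodule.mem_bot ℝ).1 hv, map_zero]
  exact Submodule.zero_mem _

theorem LInv.top {H : Subgroup G} : LInv a H ⊤ := fun _ _ _ _ => Submodule.mem_top

/-- Invariance from the images of spanning vectors. -/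
theorem LInv.span {H : Subgroup G} {S : Set V}
    (h : ∀ g ∈ H, ∀ v ∈ S, (a g).linear v ∈ Submodule.span ℝ S) : LInv a H (Submodule.span ℝ S) := by
  intro g hg v hv
  have h1 : Submodule.span ℝ S ≤ (Submodule.span ℝ S).comap ((a g).linear : V →ₗ[ℝ] V) := by
    rw [Submodule.span_le]
    exact fun v hv => h g hg v hv
  exact h1 hv

/-- An invariant subspace is mapped onto itself. -/
theorem LInv.exists_preimage {H : Subgroup G} {W : Submodule ℝ V} (h : LInv a H W) {g : G}
    (hg : g ∈ H) {v : V} (hv : v ∈ W) : ∃ v' ∈ W, (a g).linear v' = v :=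
  ⟨(a g⁻¹).linear v, h _ (H.inv_mem hg) v hv, lin_inv' g v⟩

theorem LInv.mem_iff {H : Subgroup G} {W : Submodule ℝ V} (h : LInv a H W) {g : G}
    (hg : g ∈ H) {v : V} : (a g).linear v ∈ W ↔ v ∈ W := by
  refine ⟨fun hv => ?_, fun hv => h g hg v hv⟩
  have h1 := h _ (H.inv_mem hg) _ hv
  rwa [lin_inv] at h1

/-- A full flag in dimension four gives a virtually solvable group. -/
theorem VSec.of_flag [FiniteDimensional ℝ V] (hV : finrank ℝ V = 4) {W₁ W₂ W₃ : Submodule ℝ V}
    (h₁ : LInv a ⊤ W₁) (h₂ : LInv a ⊤ W₂) (h₃ : LInv a ⊤ W₃) (hle : W₁ ≤ W₂) (hle' : W₂ ≤ W₃)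
    (d₁ : finrank ℝ W₁ = 1) (d₂ : finrank ℝ W₂ = 2) (d₃ : finrank ℝ W₃ = 3) : VSec a ⊥ ⊤ := by
  have e1 : VSec a ⊥ W₁ := VSec.of_finrank LInv.bot h₁ bot_le (by rw [d₁, finrank_bot])
  have e2 : VSec a W₁ W₂ := VSec.of_finrank h₁ h₂ hle (by omega)
  have e3 : VSec a W₂ W₃ := VSec.of_finrank h₂ h₃ hle' (by omega)
  have e4 : VSec a W₃ ⊤ := VSec.of_finrank h₃ LInv.top le_top (by rw [finrank_top]; omega)
  exact ((e1.trans h₂ e2).trans h₃ e3).trans LInv.top e4

end

namespace LieData

variable {V E G : Type*} [NormedAddCommGroup V] [NormedSpace ℝ V] [FiniteDimensional ℝ V]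
    [NormedAddCommGroup E] [NormedSpace ℝ E] [FiniteDimensional ℝ E] [Group G]
  (D : LieData V E G)

/-- the value of the field `ξ` at `x`, as a linear map in `ξ` -/
def T (x : V) : E →ₗ[ℝ] V where
  toFun ξ := D.X ξ x + D.w ξ
  map_add' ξ η := by
    rw [map_add, map_add, LinearMap.add_apply]
    abel
  map_smul' c ξ := by
    rw [map_smul, map_smul, LinearMap.smul_apply, RingHom.id_apply, smul_add]

theorem T_apply (x : V) (ξ : E) : D.T x ξ = D.X ξ x + D.w ξ := rfl

theorem T_injective : Function.Injective (D.T D.x₀) := by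
  rw [← LinearMap.ker_eq_bot, LinearMap.ker_eq_bot']
  exact fun ξ h => D.free ξ h

theorem finrank_le_of_T_mem {W : Submodule ℝ V} (h : ∀ ξ, D.X ξ D.x₀ + D.w ξ ∈ W) :
    finrank ℝ E ≤ finrank ℝ W := by
  have h1 : LinearMap.range (D.T D.x₀) ≤ W := by
    rintro _ ⟨ξ, rfl⟩
    exact h ξ
  have h2 := LinearMap.finrank_range_of_inj D.T_injective
  rw [← h2]
  exact Submodule.finrank_mono h1

theorem T_ad (g : G) (x : V) (ξ : E) : D.T (D.a g x) (D.ad g ξ) = (D.a g).linear (D.T x ξ) := by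
  rw [T_apply, T_apply, D.w_ad, act_apply g x, map_add, D.X_ad, map_add]
  abel

theorem X_ad' (g : G) (ξ : E) (v : V) :
    D.X (D.ad g ξ) v = (D.a g).linear (D.X ξ ((D.a g⁻¹).linear v)) := by
  rw [← D.X_ad, lin_inv']

theorem ad_inj (g : G) {ξ η : E} (h : D.ad g ξ = D.ad g η) : ξ = η := (D.ad g).injective h

theorem ad_mul (g h : G) (ξ : E) : D.ad (g * h) ξ = D.ad g (D.ad h ξ) := by
  rw [map_mul]
  rfl

theorem ad_inv (g : G) (ξ : E) : D.ad g⁻¹ (D.ad g ξ) = ξ := by
  rw [← D.ad_mul, inv_mul_cancel, map_one]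
  rfl

theorem ad_inv' (g : G) (ξ : E) : D.ad g (D.ad g⁻¹ ξ) = ξ := by
  rw [← D.ad_mul, mul_inv_cancel, map_one]
  rfl

theorem eq_zero_of {ξ : E} (hX : D.X ξ = 0) (hw : D.w ξ = 0) : ξ = 0 := by
  refine D.free ξ ?_
  rw [hX, hw, LinearMap.zero_apply, add_zero]

/-- The span of the ranges of the linear parts of the fields. -/
def I : Submodule ℝ V := ⨆ ξ, LinearMap.range (D.X ξ)

theorem X_mem_I (ξ : E) (v : V) : D.X ξ v ∈ D.I :=
  Submodule.mem_iSup_of_mem ξ ⟨v, rfl⟩

theorem I_le {W : Submodule ℝ V} (h : ∀ ξ v, D.X ξ v ∈ W) : D.I ≤ W :=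
  iSup_le fun ξ => by
    rintro _ ⟨v, rfl⟩
    exact h ξ v

/-- The span of `X ξ v`, `v` in `W`. -/
def J (W : Submodule ℝ V) : Submodule ℝ V := ⨆ ξ, W.map (D.X ξ)

theorem X_mem_J {W : Submodule ℝ V} (ξ : E) {v : V} (hv : v ∈ W) : D.X ξ v ∈ D.J W :=
  Submodule.mem_iSup_of_mem ξ ⟨v, hv, rfl⟩

theorem J_le {W W' : Submodule ℝ V} (h : ∀ ξ, ∀ v ∈ W, D.X ξ v ∈ W') : D.J W ≤ W' :=
  iSup_le fun ξ => by
    rintro _ ⟨v, hv, rfl⟩
    exact h ξ v hv

theorem J_top : D.J ⊤ = D.I := by
  refine le_antisymm (D.J_le fun ξ v _ => D.X_mem_I ξ v) (D.I_le fun ξ v => ?_)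
  exact D.X_mem_J ξ Submodule.mem_top

theorem J_mono {W W' : Submodule ℝ V} (h : W ≤ W') : D.J W ≤ D.J W' :=
  D.J_le fun ξ _ hv => D.X_mem_J ξ (h hv)

theorem linv_J {W : Submodule ℝ V} {H : Subgroup G} (hW : LInv D.a H W) : LInv D.a H (D.J W) := by
  intro g hg v hv
  have h1 : D.J W ≤ (D.J W).comap ((D.a g).linear : V →ₗ[ℝ] V) := by
    refine D.J_le fun ξ v hv => ?_
    change (D.a g).linear (D.X ξ v) ∈ D.J W
    rw [← D.X_ad]
    exact D.X_mem_J _ (hW g hg v hv)
  exact h1 hv

theorem linv_I {H : Subgroup G} : LInv D.a H D.I := by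
  rw [← D.J_top]
  exact D.linv_J LInv.top

/-- A nonzero subspace invariant under the commuting nilpotent `X ξ` is not spanned by its images. -/
theorem J_lt {W : Submodule ℝ V} (hW : ∀ ξ, ∀ v ∈ W, D.X ξ v ∈ W) (hne : W ≠ ⊥) : D.J W < W := by
  have hle : D.J W ≤ W := D.J_le hW
  refine lt_of_le_of_ne hle fun heq => hne ?_
  -- the ranges of words of length `n` span `W`
  classical
  let b := Module.finBasis ℝ E
  -- induction over the basis: `W = span of X_b W` iterated
  have key : ∀ s : Finset (Fin (finrank ℝ E)), ∀ U : Submodule ℝ V,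
      (∀ ξ, ∀ v ∈ U, D.X ξ v ∈ U) → (U = ⨆ i ∈ s, U.map (D.X (b i))) → U = ⊥ := by
    intro s
    induction s using Finset.induction_on with
    | empty =>
      intro U _ h
      rw [h]
      simp
    | insert i s his ih =>
      intro U hU h
      -- `U' = X_i^n U` for large `n` is `0`
      have h2 : ∀ n : ℕ, U ≤ (⨆ j ∈ s, U.map (D.X (b j))) ⊔ U.map ((D.X (b i)) ^ n) := by
        intro n
        induction n with
        | zero =>
          intro v hv
          exact Submodule.mem_sup_right ⟨v, hv, rfl⟩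
        | succ n ihn =>
          refine ihn.trans (sup_le le_sup_left ?_)
          rintro _ ⟨v, hv, rfl⟩
          have hv' : v ∈ (⨆ j ∈ s, U.map (D.X (b j))) ⊔ U.map (D.X (b i)) := by
            have h3 : U ≤ (⨆ j ∈ s, U.map (D.X (b j))) ⊔ U.map (D.X (b i)) := by
              conv_lhs => rw [h]
              refine iSup₂_le fun j hj => ?_
              rcases Finset.mem_insert.1 hj with rfl | hj
              · exact le_sup_right
              · exact le_trans (le_iSup₂_of_le j hj le_rfl) le_sup_left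
            exact h3 hv
          obtain ⟨y, hy, z, ⟨u, hu, rfl⟩, rfl⟩ := Submodule.mem_sup.1 hv'
          rw [map_add]
          refine Submodule.add_mem_sup ?_ ⟨u, hu, ?_⟩
          · have h4 : ∀ m : ℕ, ∀ y ∈ (⨆ j ∈ s, U.map (D.X (b j))),
                ((D.X (b i)) ^ m) y ∈ (⨆ j ∈ s, U.map (D.X (b j))) := by
              intro m
              induction m with
              | zero => exact fun y hy => hy
              | succ m ihm =>
                intro y hy
                rw [pow_succ', Module.End.mul_apply]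
                have h5 := ihm y hy
                have h6 : (⨆ j ∈ s, U.map (D.X (b j))) ≤
                    (⨆ j ∈ s, U.map (D.X (b j))).comap (D.X (b i)) := by
                  refine iSup₂_le fun j hj => ?_
                  rintro _ ⟨u, hu, rfl⟩
                  rw [Submodule.mem_comap, D.comm]
                  exact Submodule.mem_iSup_of_mem j
                    (Submodule.mem_iSup_of_mem hj ⟨_, hU _ _ hu, rfl⟩)
                exact h6 h5
            exact h4 n y hy
          · rw [pow_succ, Module.End.mul_apply]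
      obtain ⟨n, hn⟩ := D.nil (b i)
      have h3 := h2 n
      rw [hn, Submodule.map_zero, sup_bot_eq] at h3
      refine ih U hU (le_antisymm h3 (iSup₂_le fun j _ => ?_))
      rintro _ ⟨u, hu, rfl⟩
      exact hU _ _ hu
  refine key Finset.univ W hW ?_
  refine le_antisymm ?_ (iSup₂_le fun j _ => ?_)
  · conv_lhs => rw [← heq]
    refine D.J_le fun ξ v hv => ?_
    have h5 : D.X ξ v = ∑ i, b.repr ξ i • D.X (b i) v := by
      conv_lhs => rw [← b.sum_repr ξ]
      rw [map_sum, LinearMap.sum_apply]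
      exact Finset.sum_congr rfl fun i _ => by rw [map_smul, LinearMap.smul_apply]
    rw [h5]
    refine Submodule.sum_mem _ fun i _ => Submodule.smul_mem _ _ ?_
    exact Submodule.mem_iSup_of_mem i (Submodule.mem_iSup_of_mem (Finset.mem_univ i) ⟨v, hv, rfl⟩)
  · rintro _ ⟨u, hu, rfl⟩
    exact hW _ _ hu

theorem I_ne_top (h : Nontrivial V) : D.I ≠ ⊤ := by
  have h1 := D.J_lt (W := ⊤) (fun _ _ _ => Submodule.mem_top) (by
    intro h2
    exact (bot_ne_top (α := Submodule ℝ V)) h2.symm)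
  rw [D.J_top] at h1
  exact h1.ne

/-- A coset of an invariant subspace which is invariant under a subgroup of finite index is `V`. -/
theorem eq_top_of_coset {H : Subgroup G} (hH : H.FiniteIndex) {W : Submodule ℝ V}
    (hW : LInv D.a H W) {x : V} (hx : ∀ g ∈ H, D.a g x - x ∈ W) : W = ⊤ := by
  have h1 := D.noinv H hH (AffineSubspace.mk' x W) ⟨x, AffineSubspace.self_mem_mk' x W⟩ (by
    intro g hg y hy
    rw [AffineSubspace.mem_mk'] at hy ⊢
    rw [vsub_eq_sub] at hy ⊢
    have h2 : D.a g y - x = (D.a g).linear (y - x) + (D.a g x - x) := by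
      rw [← act_sub]
      abel
    rw [h2]
    exact W.add_mem (hW g hg _ hy) (hx g hg))
  have h2 := AffineSubspace.direction_mk' x W
  rw [h1, AffineSubspace.direction_top] at h2
  exact h2.symm

/-- The zero set of a field spanning an invariant line is empty. -/
theorem w_notMem_range {ζ : E} (hζ : ζ ≠ 0) {H : Subgroup G} (hH : H.FiniteIndex)
    (hl : ∀ g ∈ H, D.ad g ζ ∈ Submodule.span ℝ {ζ}) : D.w ζ ∉ LinearMap.range (D.X ζ) := by
  rintro ⟨v, hv⟩
  have hz : D.T (-v) ζ = 0 := by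
    rw [T_apply, map_neg, hv, neg_add_cancel]
  have hW : LInv D.a H (LinearMap.ker (D.X ζ)) := by
    intro g hg u hu
    obtain ⟨c, hc⟩ := Submodule.mem_span_singleton.1 (hl g⁻¹ (H.inv_mem hg))
    rw [LinearMap.mem_ker] at hu ⊢
    have h1 := D.X_ad g⁻¹ ζ ((D.a g).linear u)
    rw [lin_inv, ← hc, map_smul, LinearMap.smul_apply, hu, smul_zero] at h1
    have h2 := congrArg (D.a g).linear h1
    rw [map_zero, lin_inv'] at h2
    exact h2.symm
  have htop := D.eq_top_of_coset hH hW (x := -v) (by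
    intro g hg
    obtain ⟨c, hc⟩ := Submodule.mem_span_singleton.1 (hl g⁻¹ (H.inv_mem hg))
    -- `T (a g (-v)) ζ = 0`
    have h1 : D.T (D.a g (-v)) ζ = 0 := by
      have h2 := D.T_ad g (-v) (D.ad g⁻¹ ζ)
      rw [D.ad_inv', ← hc, map_smul, hz, smul_zero, map_zero] at h2
      exact h2
    rw [LinearMap.mem_ker, map_sub]
    rw [T_apply] at h1 hz
    rw [eq_neg_of_add_eq_zero_left h1, eq_neg_of_add_eq_zero_left hz, sub_self])
  have hX : D.X ζ = 0 := LinearMap.ker_eq_top.1 htop
  rw [T_apply, hX, LinearMap.zero_apply, zero_add] at hz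
  exact hζ (D.eq_zero_of hX hz)

/-- Restriction to a subgroup of finite index. -/
def restrict (H : Subgroup G) (hH : H.FiniteIndex) : LieData V E H where
  a := D.a.comp H.subtype
  ad := D.ad.comp H.subtype
  X := D.X
  w := D.w
  L := D.L
  comm := D.comm
  commw := D.commw
  nil := D.nil
  X_ad g := D.X_ad g
  w_ad g := D.w_ad g
  discrete := D.discrete
  lattice := D.lattice
  L_ad g := D.L_ad g
  x₀ := D.x₀
  free := D.free
  noinv := by
    intro K hK Z hZ hinv
    refine D.noinv (K.map H.subtype) ⟨?_⟩ Z hZ ?_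
    · rw [Subgroup.index_map_subtype]
      exact mul_ne_zero hK.index_ne_zero hH.index_ne_zero
    · rintro _ ⟨g, hg, rfl⟩ x hx
      exact hinv g hg x hx

theorem good_of_restrict {H : Subgroup G} (hH : H.FiniteIndex) (h : (D.restrict H hH).Good) :
    D.Good := by
  rcases h with h | ⟨K, hK, h⟩
  · exact Or.inl (VSec.of_subgroup hH h)
  · refine Or.inr ⟨K.map H.subtype, ⟨?_⟩, ?_⟩
    · rw [Subgroup.index_map_subtype]
      exact mul_ne_zero hK.index_ne_zero hH.index_ne_zero
    · rcases h with ⟨W, h1, h2, h3⟩ | ⟨W, h1, h2, h3, h4, h5, h6⟩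
      · refine Or.inl ⟨W, ?_, h2, h3⟩
        rintro _ ⟨g, hg, rfl⟩ v hv
        exact h1 g hg v hv
      · refine Or.inr ⟨W, ?_, h2, h3, h4, h5, ?_⟩
        · rintro _ ⟨g, hg, rfl⟩ v hv
          exact h1 g hg v hv
        · rintro _ ⟨g, hg, rfl⟩ h
          exact h6 g hg h

end LieData

end Pool.Agent.Helper77.K4
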