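import Pool.Agent.Helper77.K4.Vec

/-!
# Saturation under the vector group
-/

set_option autoImplicit false

open Set MeasureTheory Module Metric Filter Topology
open scoped Pointwise

namespace Pool.Agent.Helper77.K4

open Pool.Agent.Helper77.KT

namespace VecAct

variable {V : Type*} [NormedAddCommGroup V] [NormedSpace ℝ V] [FiniteDimensional ℝ V]
  {Γ : Subgroup (V ≃ᵃ[ℝ] V)} {E : Type*} [NormedAddCommGroup E] [NormedSpace ℝ E]
  [FiniteDimensional ℝ E] (A : VecAct Γ E) {Ω : Set V} (H : Klein Γ Ω)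

include H

/-- Finitely many classes modulo the lattice move a compact set to a set meeting a given orbit. -/
theorem finite_classes {K : Set V} (hK : IsCompact K) (hKΩ : K ⊆ Ω) (x : V) :
    ∃ R : Set (V ≃ᵃ[ℝ] V), R.Finite ∧ R ⊆ Γ ∧
      ∀ γ ∈ Γ, (∃ z ∈ K, ∃ ξ, γ z = A.e ξ x) → ∃ l ∈ A.L, ∃ ρ ∈ R, γ = A.e l * ρ := by
  classical
  obtain ⟨ε, hε, hεΩ⟩ := hK.exists_cthickening_subset_open H.isOpen hKΩ
  set K₁ := cthickening ε K with hK₁
  have hK₁c : IsCompact K₁ := hK.cthickening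
  obtain ⟨δ, hδ, hδK⟩ := A.exists_small' hK hε
  set S := {γ : V ≃ᵃ[ℝ] V | γ ∈ Γ ∧ (((fun x => γ x) '' K₁) ∩ K₁).Nonempty} with hS
  have hSf : S.Finite := H.proper K₁ hεΩ hK₁c
  -- the subgroup of the lattice
  let N : Subgroup (V ≃ᵃ[ℝ] V) :=
    { carrier := A.e '' A.L
      one_mem' := ⟨0, A.L.zero_mem, A.e_zero⟩
      mul_mem' := by
        rintro _ _ ⟨l, hl, rfl⟩ ⟨l', hl', rfl⟩
        exact ⟨l + l', A.L.add_mem hl hl', A.e_add l l'⟩
      inv_mem' := by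
        rintro _ ⟨l, hl, rfl⟩
        exact ⟨-l, A.L.neg_mem hl, A.e_neg l⟩ }
  have hN : ∀ γ ∈ Γ, ∀ n ∈ N, γ⁻¹ * n * γ ∈ N := by
    rintro γ hγ _ ⟨l, hl, rfl⟩
    refine ⟨A.ad (⟨γ, hγ⟩ : Γ)⁻¹ l, A.L_ad _ _ hl, ?_⟩
    rw [A.e_ad]
    simp
  set Q := {γ : V ≃ᵃ[ℝ] V | γ ∈ Γ ∧ ∃ z ∈ K, ∃ ξ, γ z = A.e ξ x} with hQ
  set f : (V ≃ᵃ[ℝ] V) → (V ≃ᵃ[ℝ] V) ⧸ N := fun γ => (γ : (V ≃ᵃ[ℝ] V) ⧸ N) with hf
  suffices hfin : (f '' Q).Finite by
    obtain ⟨R, hRQ, hbij⟩ := exists_subset_bijOn Q f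
    refine ⟨R, ?_, fun ρ hρ => (hRQ hρ).1, ?_⟩
    · refine Set.Finite.of_finite_image ?_ hbij.injOn
      rw [hbij.image_eq]
      exact hfin
    · intro γ hγ hz
      obtain ⟨ρ, hρ, hρf⟩ := hbij.surjOn ⟨γ, ⟨hγ, hz⟩, rfl⟩
      have h1 : ρ⁻¹ * γ ∈ N := QuotientGroup.eq.1 hρf
      have h2 := hN ρ⁻¹ (Γ.inv_mem (hRQ hρ).1) _ h1
      rw [inv_inv, mul_inv_cancel_left] at h2
      obtain ⟨l, hl, he⟩ := h2
      exact ⟨l, hl, ρ, hρ, by rw [he, inv_mul_cancel_right]⟩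
  by_contra hinf
  have hQinf : (f '' Q).Infinite := hinf
  let _ : MeasurableSpace E := borel E
  have : BorelSpace E := ⟨rfl⟩
  have := A.discrete H
  have := A.zlattice H
  let μ : Measure E := Measure.addHaar
  obtain ⟨c, hc, hcount⟩ := count μ A.L
  set v := μ (ball 0 δ) with hv
  have hv0 : v ≠ 0 := (isOpen_ball.measure_pos μ ⟨0, mem_ball_self hδ⟩).ne'
  have hfc : ((S.ncard : ENNReal)) * c ≠ ⊤ := ENNReal.mul_ne_top (ENNReal.natCast_ne_top _) hc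
  obtain ⟨m, hm⟩ := ENNReal.exists_nat_mul_gt hv0 hfc
  obtain ⟨t, htQ, htm⟩ := hQinf.exists_subset_card_eq m
  choose γ hγQ hγf using fun q : t => htQ q.2
  choose hγ z hz ξ₀ hγz using hγQ
  let D : t → Set E := fun q => {ξ | (γ q).symm (A.e ξ x) ∈ ball (z q) ε}
  have hDo : ∀ q, IsOpen (D q) := by
    intro q
    have h1 : Continuous fun ξ : E => (γ q).symm (A.e ξ x) := by
      have h2 : Continuous (γ q).symm := AffineEquiv.continuous_of_finiteDimensional _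
      exact h2.comp (A.cont.comp (Continuous.prodMk_left x))
    exact isOpen_ball.preimage h1
  have hDv : ∀ q, v ≤ μ (D q) := by
    intro q
    have hsub : (fun ξ => ξ + (-(ξ₀ q))) ⁻¹' ((A.ad ⟨γ q, hγ q⟩).symm ⁻¹' (ball 0 δ)) ⊆ D q := by
      intro ξ hξ
      rw [mem_preimage, mem_preimage, mem_ball, dist_zero_right] at hξ
      set η := (A.ad ⟨γ q, hγ q⟩).symm (ξ + (-(ξ₀ q))) with hη
      have h1 : A.ad ⟨γ q, hγ q⟩ η = ξ + (-(ξ₀ q)) := LinearEquiv.apply_symm_apply _ _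
      have h2 : ξ = A.ad ⟨γ q, hγ q⟩ η + ξ₀ q := by
        rw [h1]
        abel
      change (γ q).symm (A.e ξ x) ∈ ball (z q) ε
      rw [h2, A.e_add_apply, ← hγz q, A.e_ad]
      change (γ q).symm (γ q (A.e η ((γ q).symm (γ q (z q))))) ∈ ball (z q) ε
      rw [AffineEquiv.symm_apply_apply, AffineEquiv.symm_apply_apply]
      exact hδK η hξ.le _ (hz q)
    have h2 : |LinearMap.det ((A.ad ⟨γ q, hγ q⟩).symm.symm : E →ₗ[ℝ] E)| = 1 :=
      A.abs_det_ad H _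
    have h3 : μ ((fun ξ => ξ + (-(ξ₀ q))) ⁻¹' ((A.ad ⟨γ q, hγ q⟩).symm ⁻¹' (ball 0 δ))) = v := by
      rw [measure_preimage_add_right, Measure.addHaar_preimage_linearEquiv, h2]
      simp [hv]
    rw [← h3]
    exact measure_mono hsub
  have hmult : ∀ p, {q : t × A.L | (q.2 : E) + p ∈ D q.1}.encard ≤ S.ncard := by
    intro p
    set T := {q : t × A.L | (q.2 : E) + p ∈ D q.1} with hT
    rcases T.eq_empty_or_nonempty with h0 | ⟨q₀, hq₀⟩
    · rw [h0]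
      simp
    let τ : A.L → (V ≃ᵃ[ℝ] V) := fun g => A.e (-(g : E))
    have hτ : ∀ g, τ g ∈ Γ := fun g => A.mem _ (A.L.neg_mem g.2)
    let d : t × A.L → (V ≃ᵃ[ℝ] V) := fun q => τ q.2 * γ q.1
    have hd : ∀ q, d q ∈ Γ := fun q => Γ.mul_mem (hτ _) (hγ _)
    have hdK : ∀ q ∈ T, ∃ k ∈ K₁, d q k = A.e p x := by
      intro q hq
      have h1 : (γ q.1).symm (A.e ((q.2 : E) + p) x) ∈ ball (z q.1) ε := hq
      refine ⟨(γ q.1).symm (A.e ((q.2 : E) + p) x), ?_, ?_⟩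
      · refine mem_cthickening_of_dist_le _ (z q.1) ε K (hz _) (mem_ball.1 h1).le
      · change A.e (-(q.2 : E)) ((γ q.1) ((γ q.1).symm _)) = _
        rw [AffineEquiv.apply_symm_apply, ← A.e_add_apply, neg_add_cancel_left]
    have hdS : ∀ q ∈ T, (d q₀)⁻¹ * d q ∈ S := by
      intro q hq
      obtain ⟨k, hk, hk'⟩ := hdK q hq
      obtain ⟨k₀, hk₀, hk₀'⟩ := hdK q₀ hq₀
      refine ⟨Γ.mul_mem (Γ.inv_mem (hd _)) (hd _), k₀, ⟨k, hk, ?_⟩, hk₀⟩
      change (d q₀).symm (d q k) = k₀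
      rw [hk', ← hk₀', AffineEquiv.symm_apply_apply]
    have hinj : InjOn (fun q => (d q₀)⁻¹ * d q) T := by
      intro q _ q' _ h
      have h1 : d q = d q' := mul_left_cancel h
      have h1' : A.e (-(q.2 : E)) * γ q.1 = A.e (-(q'.2 : E)) * γ q'.1 := h1
      have h2 : (γ q.1)⁻¹ * γ q'.1 ∈ N := by
        have h3 : (γ q.1)⁻¹ * γ q'.1 = (γ q.1)⁻¹ * (A.e ((q'.2 : E) - q.2)) * γ q.1 := by
          have h4 : γ q'.1 = A.e ((q'.2 : E) - q.2) * γ q.1 := by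
            rw [sub_eq_add_neg, A.e_add, mul_assoc, h1', ← mul_assoc, ← A.e_add,
              add_neg_cancel, A.e_zero, one_mul]
          conv_lhs => rw [h4]
          rw [mul_assoc]
        rw [h3]
        exact hN _ (hγ _) _ ⟨_, A.L.sub_mem q'.2.2 q.2.2, rfl⟩
      have h5 : q.1 = q'.1 := by
        have h6 : f (γ q.1) = f (γ q'.1) := QuotientGroup.eq.2 h2
        rw [hγf, hγf] at h6
        exact Subtype.ext h6
      have h7 : A.e (-(q.2 : E)) = A.e (-(q'.2 : E)) := by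
        rw [h5] at h1'
        exact mul_right_cancel h1'
      have h8 := A.e_inj (A.L.neg_mem q.2.2) (A.L.neg_mem q'.2.2) h7
      exact Prod.ext h5 (Subtype.ext (neg_injective h8))
    rw [← hinj.encard_image, hSf.cast_ncard_eq]
    exact encard_le_encard (image_subset_iff.2 hdS)
  have h1 := hcount t D S.ncard v (fun q => (hDo q).measurableSet) hDv hmult
  rw [Fintype.card_coe, htm] at h1
  exact absurd h1 (not_le.2 hm)

/-- The domain is invariant under the vector group. -/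
theorem saturated {x : V} (hx : x ∈ Ω) (ξ : E) : A.e ξ x ∈ Ω := by
  obtain ⟨K, hKΩ, hK, hcov⟩ := H.cocompact
  obtain ⟨R, hR, hRΓ, hRK⟩ := A.finite_classes H hK hKΩ x
  let C : Set E := ⋃ ρ ∈ R, ((A.L : Set E) + {η : E | A.e η x ∈ (fun y => ρ y) '' K})
  have hcont : Continuous fun η : E => A.e η x := A.cont.comp (Continuous.prodMk_left x)
  have hC : IsClosed C := by
    refine hR.isClosed_biUnion fun ρ hρ => ?_
    have hKρ : IsCompact ((fun y => ρ y) '' K) :=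
      hK.image (AffineEquiv.continuous_of_finiteDimensional _)
    have hKρΩ : (fun y => ρ y) '' K ⊆ Ω := by
      rintro _ ⟨k, hk, rfl⟩
      exact H.inv ρ (hRΓ hρ) k (hKΩ hk)
    refine (A.isClosed_L H).add_right_of_isCompact ?_
    exact Metric.isCompact_of_isClosed_isBounded (hKρ.isClosed.preimage hcont)
      (A.bounded_orbit H hKρ hKρΩ x)
  have h1 : {η : E | A.e η x ∈ Ω} = C := by
    ext η
    constructor
    · intro h
      obtain ⟨γ, hγ, hγK⟩ := hcov _ h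
      obtain ⟨l, hl, ρ, hρ, he⟩ := hRK γ⁻¹ (Γ.inv_mem hγ) ⟨_, hγK, η, γ.symm_apply_apply _⟩
      refine mem_biUnion hρ ⟨l, hl, η - l, ⟨γ (A.e η x), hγK, ?_⟩, ?_⟩
      · change ρ (γ (A.e η x)) = A.e (η - l) x
        have h2 : ρ = A.e (-l) * γ⁻¹ := by
          rw [he, ← mul_assoc, ← A.e_add, neg_add_cancel, A.e_zero, one_mul]
        rw [h2]
        change A.e (-l) (γ.symm (γ (A.e η x))) = _
        rw [AffineEquiv.symm_apply_apply, ← A.e_add_apply, neg_add_eq_sub]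
      · change l + (η - l) = η
        abel
    · intro h
      obtain ⟨ρ, hρ, l, hl, η', ⟨k, hk, hk'⟩, rfl⟩ := mem_iUnion₂.1 h
      change A.e (l + η') x ∈ Ω
      rw [A.e_add_apply]
      refine H.inv _ (A.mem l hl) _ ?_
      rw [← hk']
      exact H.inv ρ (hRΓ hρ) _ (hKΩ hk)
  have h2 : IsClopen {η : E | A.e η x ∈ Ω} := by
    refine ⟨?_, H.isOpen.preimage hcont⟩
    rw [h1]
    exact hC
  have h3 : {η : E | A.e η x ∈ Ω} = univ := by
    refine h2.eq_univ ⟨0, ?_⟩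
    change A.e 0 x ∈ Ω
    rwa [A.e_zero_apply]
  have h4 : ξ ∈ {η : E | A.e η x ∈ Ω} := by
    rw [h3]
    trivial
  exact h4

end VecAct

end Pool.Agent.Helper77.K4
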