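import Pool.Agent.Helper77.K4.ExpA
import Pool.Agent.Helper77.K4.Sat
import Pool.Agent.Helper77.K4.Lie

/-!
# The hull of an abelian unipotent normal subgroup
-/

set_option autoImplicit false

open Set Module

namespace Pool.Agent.Helper77.K4

open Pool.Agent.SOL Pool.Agent.Helper77.KT

variable {V : Type*} [NormedAddCommGroup V] [NormedSpace ℝ V] [FiniteDimensional ℝ V]

/-- An abelian unipotent normal subgroup. -/
structure UNormal (Γ N : Subgroup (V ≃ᵃ[ℝ] V)) : Prop where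
  le : N ≤ Γ
  norm : ∀ g ∈ Γ, ∀ s ∈ N, g * s * g⁻¹ ∈ N
  comm : ∀ s ∈ N, ∀ t ∈ N, s * t = t * s
  nil : ∀ s ∈ N, IsNilpotent (liftA s - 1 : EndE V)

/-- The hull. -/
def hullE (N : Subgroup (V ≃ᵃ[ℝ] V)) : Submodule ℝ (EndE V) :=
  Submodule.span ℝ ((fun s => ulog (liftA s)) '' (N : Set (V ≃ᵃ[ℝ] V)))

namespace UNormal

variable {Γ N : Subgroup (V ≃ᵃ[ℝ] V)} (U : UNormal Γ N)

include U

theorem commute {x y : EndE V} (hx : x ∈ hullE N) (hy : y ∈ hullE N) : Commute x y := by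
  refine Submodule.span_induction (p := fun x _ => Commute x y) ?_ ?_ ?_ ?_ hx
  · rintro _ ⟨s, hs, rfl⟩
    refine Submodule.span_induction (p := fun y _ => Commute (ulog (liftA s)) y) ?_ ?_ ?_ ?_ hy
    · rintro _ ⟨t, ht, rfl⟩
      refine commute_ulog ?_
      have h1 := congrArg liftA (U.comm s hs t ht)
      rw [liftA_mul, liftA_mul] at h1
      exact h1
    · exact Commute.zero_right _
    · intro a b _ _ ha hb
      exact ha.add_right hb
    · intro c a _ ha
      exact ha.smul_right c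
  · exact Commute.zero_left _
  · intro a b _ _ ha hb
    exact ha.add_left hb
  · intro c a _ ha
    exact ha.smul_left c

theorem isNilpotent {x : EndE V} (hx : x ∈ hullE N) : IsNilpotent x := by
  refine Submodule.span_induction (p := fun x _ => IsNilpotent x) ?_ ?_ ?_ ?_ hx
  · rintro _ ⟨s, hs, rfl⟩
    exact isNilpotent_ulog (U.nil s hs)
  · exact IsNilpotent.zero
  · intro a b ha hb ha' hb'
    exact (U.commute ha hb).isNilpotent_add ha' hb'
  · intro c a _ ha
    exact isNilpotent_smul ha c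

omit U in
theorem isField {x : EndE V} (hx : x ∈ hullE N) : IsField x := by
  refine Submodule.span_induction (p := fun x _ => IsField x) ?_ ?_ ?_ ?_ hx
  · rintro _ ⟨s, hs, rfl⟩
    exact isField_ulog (isAff_liftA s)
  · exact isField_zero
  · intro a b _ _ ha hb
    exact ha.add hb
  · intro c a _ ha
    exact ha.smul c

omit U in
theorem liftA_mul_inv (g : V ≃ᵃ[ℝ] V) : liftA g * liftA g⁻¹ = 1 := by
  rw [← liftA_mul, mul_inv_cancel, liftA_one]

omit U in
theorem liftA_inv_mul (g : V ≃ᵃ[ℝ] V) : liftA g⁻¹ * liftA g = 1 := by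
  rw [← liftA_mul, inv_mul_cancel, liftA_one]

theorem conj_mem {g : V ≃ᵃ[ℝ] V} (hg : g ∈ Γ) {x : EndE V} (hx : x ∈ hullE N) :
    liftA g * x * liftA g⁻¹ ∈ hullE N := by
  have key : hullE N ≤ (hullE N).comap ((LinearMap.mulRight ℝ (liftA g⁻¹)).comp
      (LinearMap.mulLeft ℝ (liftA g))) := by
    rw [hullE, Submodule.span_le]
    rintro _ ⟨s, hs, rfl⟩
    refine Submodule.subset_span ⟨g * s * g⁻¹, U.norm g hg s hs, ?_⟩
    let u : (EndE V)ˣ := ⟨liftA g, liftA g⁻¹, liftA_mul_inv g, liftA_inv_mul g⟩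
    change ulog (liftA (g * s * g⁻¹)) = liftA g * ulog (liftA s) * liftA g⁻¹
    rw [liftA_mul, liftA_mul]
    exact (conj_ulog u (liftA s)).symm
  exact key hx

/-- The flow of an element of the hull. -/
noncomputable def fl (x : hullE N) : V ≃ᵃ[ℝ] V :=
  flow (x : EndE V) (isField x.2) (U.isNilpotent x.2)

theorem fl_add (x y : hullE N) : U.fl (x + y) = U.fl x * U.fl y :=
  flow_add (U.commute x.2 y.2) (isField x.2) (U.isNilpotent x.2) (isField y.2) (U.isNilpotent y.2)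

theorem fl_zero : U.fl 0 = 1 := flow_zero

theorem fl_neg (x : hullE N) : U.fl (-x) = (U.fl x)⁻¹ := by
  rw [eq_inv_iff_mul_eq_one, ← U.fl_add]
  have h : (-x + x : hullE N) = 0 := neg_add_cancel x
  exact (congrArg U.fl h).trans U.fl_zero

theorem liftA_fl (x : hullE N) : liftA (U.fl x) = NormedSpace.exp (x : EndE V) :=
  liftA_flow _ _

/-- Conjugation as a linear map of the hull. -/
noncomputable def conjL {g : V ≃ᵃ[ℝ] V} (hg : g ∈ Γ) : hullE N →ₗ[ℝ] hullE N :=
  ((LinearMap.mulRight ℝ (liftA g⁻¹)).comp (LinearMap.mulLeft ℝ (liftA g))).restrict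
    fun _ hx => U.conj_mem hg hx

theorem conjL_apply {g : V ≃ᵃ[ℝ] V} (hg : g ∈ Γ) (x : hullE N) :
    (U.conjL hg x : EndE V) = liftA g * x * liftA g⁻¹ := rfl

/-- The action of `Γ` on the hull. -/
noncomputable def adH : Γ →* (hullE N ≃ₗ[ℝ] hullE N) where
  toFun g := LinearEquiv.ofLinearMap (U.conjL g.2) (U.conjL (Γ.inv_mem g.2))
    (by
      apply LinearMap.ext
      intro x
      apply Subtype.ext
      rw [LinearMap.comp_apply, U.conjL_apply, U.conjL_apply, inv_inv]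
      have h1 : liftA (g : V ≃ᵃ[ℝ] V) * (liftA (g : V ≃ᵃ[ℝ] V)⁻¹ * x * liftA (g : V ≃ᵃ[ℝ] V)) *
          liftA (g : V ≃ᵃ[ℝ] V)⁻¹ = (liftA (g : V ≃ᵃ[ℝ] V) * liftA (g : V ≃ᵃ[ℝ] V)⁻¹) * x *
          (liftA (g : V ≃ᵃ[ℝ] V) * liftA (g : V ≃ᵃ[ℝ] V)⁻¹) := by
        simp only [mul_assoc]
      rw [h1, liftA_mul_inv, one_mul, mul_one]
      rfl)
    (by
      apply LinearMap.ext
      intro x
      apply Subtype.ext
      rw [LinearMap.comp_apply, U.conjL_apply, U.conjL_apply, inv_inv]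
      have h1 : liftA (g : V ≃ᵃ[ℝ] V)⁻¹ * (liftA (g : V ≃ᵃ[ℝ] V) * x * liftA (g : V ≃ᵃ[ℝ] V)⁻¹) *
          liftA (g : V ≃ᵃ[ℝ] V) = (liftA (g : V ≃ᵃ[ℝ] V)⁻¹ * liftA (g : V ≃ᵃ[ℝ] V)) * x *
          (liftA (g : V ≃ᵃ[ℝ] V)⁻¹ * liftA (g : V ≃ᵃ[ℝ] V)) := by
        simp only [mul_assoc]
      rw [h1, liftA_inv_mul, one_mul, mul_one]
      rfl)
  map_one' := by
    apply LinearEquiv.ext
    intro x
    apply Subtype.ext
    change liftA (1 : V ≃ᵃ[ℝ] V) * (x : EndE V) * liftA (1 : V ≃ᵃ[ℝ] V)⁻¹ = x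
    rw [inv_one, liftA_one, one_mul, mul_one]
  map_mul' g h := by
    apply LinearEquiv.ext
    intro x
    apply Subtype.ext
    change liftA ((g : V ≃ᵃ[ℝ] V) * (h : V ≃ᵃ[ℝ] V)) * (x : EndE V) *
      liftA ((g : V ≃ᵃ[ℝ] V) * (h : V ≃ᵃ[ℝ] V))⁻¹ =
      liftA (g : V ≃ᵃ[ℝ] V) * (liftA (h : V ≃ᵃ[ℝ] V) * (x : EndE V) *
        liftA (h : V ≃ᵃ[ℝ] V)⁻¹) * liftA (g : V ≃ᵃ[ℝ] V)⁻¹
    rw [mul_inv_rev, liftA_mul, liftA_mul]
    simp only [mul_assoc]

theorem adH_apply (g : Γ) (x : hullE N) : (U.adH g x : EndE V) =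
    liftA (g : V ≃ᵃ[ℝ] V) * x * liftA (g : V ≃ᵃ[ℝ] V)⁻¹ := rfl

theorem fl_adH (g : Γ) (x : hullE N) :
    U.fl (U.adH g x) = g * U.fl x * (g : V ≃ᵃ[ℝ] V)⁻¹ := by
  apply liftA_injective
  rw [liftA_mul, liftA_mul, liftA_fl, liftA_fl, adH_apply]
  have : CompleteSpace (EndE V) := FiniteDimensional.complete ℝ _
  let _ : NormedAlgebra ℚ (EndE V) := NormedAlgebra.restrictScalars ℚ ℝ (EndE V)
  let u : (EndE V)ˣ := ⟨liftA (g : V ≃ᵃ[ℝ] V), liftA (g : V ≃ᵃ[ℝ] V)⁻¹, liftA_mul_inv _,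
    liftA_inv_mul _⟩
  exact NormedSpace.exp_units_conj u (x : EndE V)

/-- The lattice. -/
def latH : Submodule ℤ (hullE N) where
  carrier := {x | U.fl x ∈ N}
  zero_mem' := by
    change U.fl 0 ∈ N
    rw [U.fl_zero]
    exact N.one_mem
  add_mem' := by
    intro x y hx hy
    change U.fl (x + y) ∈ N
    rw [U.fl_add]
    exact N.mul_mem hx hy
  smul_mem' := by
    intro c x hx
    change U.fl (c • x) ∈ N
    induction c using Int.induction_on with
    | zero =>
      rw [zero_smul, U.fl_zero]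
      exact N.one_mem
    | succ n ih =>
      rw [add_smul, one_smul, U.fl_add]
      exact N.mul_mem ih hx
    | pred n ih =>
      have h1 : (-(n : ℤ)) • x = (-(n : ℤ) - 1) • x + x := by
        conv_lhs => rw [← sub_add_cancel (-(n : ℤ)) 1]
        rw [add_smul, one_smul]
      rw [h1, U.fl_add] at ih
      have h2 := N.mul_mem ih (N.inv_mem hx)
      rwa [mul_inv_cancel_right] at h2

theorem mem_latH {x : hullE N} : x ∈ U.latH ↔ U.fl x ∈ N := Iff.rfl

theorem ulog_mem_latH {s : V ≃ᵃ[ℝ] V} (hs : s ∈ N) :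
    (⟨ulog (liftA s), Submodule.subset_span ⟨s, hs, rfl⟩⟩ : hullE N) ∈ U.latH := by
  rw [mem_latH]
  have h1 : U.fl ⟨ulog (liftA s), Submodule.subset_span ⟨s, hs, rfl⟩⟩ = s :=
    flow_ulog (U.nil s hs)
  rw [h1]
  exact hs

theorem span_latH : Submodule.span ℝ (U.latH : Set (hullE N)) = ⊤ := by
  apply Submodule.map_injective_of_injective (hullE N).injective_subtype
  rw [Submodule.map_span, Submodule.map_top, Submodule.range_subtype]
  apply le_antisymm
  · rw [Submodule.span_le]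
    rintro _ ⟨x, _, rfl⟩
    exact x.2
  · conv_lhs => rw [hullE]
    rw [Submodule.span_le]
    rintro _ ⟨s, hs, rfl⟩
    exact Submodule.subset_span ⟨_, U.ulog_mem_latH hs, rfl⟩

/-- The hull acts. -/
noncomputable def vecAct : VecAct Γ (hullE N) where
  e := U.fl
  e_add := U.fl_add
  cont := by
    have h1 : Continuous fun p : hullE N × V => (NormedSpace.exp (p.1 : EndE V) : EndE V)
        (p.2, (1 : ℝ)) :=
      (continuous_exp.comp (continuous_subtype_val.comp continuous_fst)).clm_apply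
        (continuous_snd.prodMk continuous_const)
    exact continuous_fst.comp h1
  L := U.latH
  span := U.span_latH
  mem l hl := U.le hl
  inj l _ h := by
    have h1 := congrArg liftA h
    rw [U.liftA_fl, liftA_one] at h1
    have h2 := ulog_exp (U.isNilpotent l.2)
    rw [h1, ulog_one] at h2
    exact Subtype.ext h2.symm
  ad := U.adH
  e_ad := U.fl_adH
  L_ad g l hl := by
    rw [mem_latH, U.fl_adH]
    exact U.norm g g.2 _ hl

/-- the linear part of a field -/
def linE : EndE V →ₗ[ℝ] (V →ₗ[ℝ] V) where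
  toFun x :=
    { toFun := fun v => (x (v, 0)).1
      map_add' := fun v w => by
        have h : ((v + w, 0) : V × ℝ) = (v, 0) + (w, 0) := by simp
        rw [h, map_add]
        rfl
      map_smul' := fun c v => by
        have h : ((c • v, 0) : V × ℝ) = c • (v, 0) := by simp
        rw [h, map_smul]
        rfl }
  map_add' x y := by
    ext v
    rfl
  map_smul' c x := by
    ext v
    rfl

/-- the constant part of a field -/
def conE : EndE V →ₗ[ℝ] V where
  toFun x := (x (0, 1)).1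
  map_add' x y := rfl
  map_smul' c x := rfl

omit U in
theorem app_field {x : EndE V} (hx : IsField x) (v : V) (t : ℝ) :
    x (v, t) = (linE x v + t • conE x, 0) := by
  have h : ((v, t) : V × ℝ) = (v, 0) + t • (0, 1) := by
    ext
    · simp
    · simp
  refine Prod.ext ?_ (hx _)
  rw [h, map_add, map_smul]
  rfl

/-- The Lie data of the hull. -/
noncomputable def lieData {Ω : Set V} (H : Klein Γ Ω)
    (hinv : ∀ K : Subgroup Γ, K.FiniteIndex → ∀ Z : AffineSubspace ℝ V, (Z : Set V).Nonempty →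
      (∀ g ∈ K, ∀ x ∈ Z, (g : V ≃ᵃ[ℝ] V) x ∈ Z) → Z = ⊤) : LieData V (hullE N) Γ where
  a := Γ.subtype
  ad := U.adH
  X := linE.comp (hullE N).subtype
  w := conE.comp (hullE N).subtype
  L := U.latH
  comm ξ η v := by
    have h1 := DFunLike.congr_fun (U.commute ξ.2 η.2) (v, (0 : ℝ))
    change (ξ : EndE V) ((η : EndE V) (v, 0)) = (η : EndE V) ((ξ : EndE V) (v, 0)) at h1
    rw [app_field (isField η.2), app_field (isField ξ.2), zero_smul, zero_smul, add_zero,
      add_zero, app_field (isField ξ.2), app_field (isField η.2), zero_smul, zero_smul, add_zero,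
      add_zero] at h1
    exact (Prod.ext_iff.1 h1).1
  commw ξ η := by
    have h1 := DFunLike.congr_fun (U.commute ξ.2 η.2) ((0 : V), (1 : ℝ))
    change (ξ : EndE V) ((η : EndE V) (0, 1)) = (η : EndE V) ((ξ : EndE V) (0, 1)) at h1
    rw [app_field (isField η.2), app_field (isField ξ.2) 0 1, map_zero, map_zero, zero_add,
      zero_add, one_smul, one_smul, app_field (isField ξ.2), app_field (isField η.2), zero_smul,
      zero_smul, add_zero, add_zero] at h1
    exact (Prod.ext_iff.1 h1).1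
  nil ξ := by
    obtain ⟨n, hn⟩ := U.isNilpotent ξ.2
    refine ⟨n, ?_⟩
    have h1 : ∀ (m : ℕ) (v : V), ((ξ : EndE V) ^ m) (v, 0) =
        (((linE (ξ : EndE V)) ^ m) v, 0) := by
      intro m
      induction m with
      | zero => intro v; rfl
      | succ m ih =>
        intro v
        have h2 : ((ξ : EndE V) ^ (m + 1)) (v, 0) = (ξ : EndE V) (((ξ : EndE V) ^ m) (v, 0)) := by
          rw [pow_succ']
          rfl
        rw [h2, ih, app_field (isField ξ.2), zero_smul, add_zero, pow_succ']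
        rfl
    apply LinearMap.ext
    intro v
    have h2 := h1 n v
    rw [hn] at h2
    exact (congrArg Prod.fst h2).symm
  X_ad g ξ v := by
    change linE (liftA (g : V ≃ᵃ[ℝ] V) * (ξ : EndE V) * liftA (g : V ≃ᵃ[ℝ] V)⁻¹)
      ((g : V ≃ᵃ[ℝ] V).linear v) = (g : V ≃ᵃ[ℝ] V).linear (linE (ξ : EndE V) v)
    have h1 : liftA (g : V ≃ᵃ[ℝ] V) (v, 0) = ((g : V ≃ᵃ[ℝ] V).linear v, 0) := by
      rw [liftA_apply, zero_smul, add_zero]
    have h2 : liftA (g : V ≃ᵃ[ℝ] V)⁻¹ ((g : V ≃ᵃ[ℝ] V).linear v, 0) = (v, 0) := by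
      rw [← h1]
      exact DFunLike.congr_fun (liftA_inv_mul (g : V ≃ᵃ[ℝ] V)) (v, (0 : ℝ))
    change (liftA (g : V ≃ᵃ[ℝ] V) ((ξ : EndE V) (liftA (g : V ≃ᵃ[ℝ] V)⁻¹
      ((g : V ≃ᵃ[ℝ] V).linear v, 0)))).1 = _
    rw [h2, app_field (isField ξ.2), zero_smul, add_zero, liftA_apply, zero_smul, add_zero]
  w_ad g ξ := by
    have h1 : liftA (g : V ≃ᵃ[ℝ] V) (0, 1) = ((g : V ≃ᵃ[ℝ] V) 0, 1) := by
      rw [liftA_apply, one_smul, map_zero, zero_add]
    have h2 : liftA (g : V ≃ᵃ[ℝ] V)⁻¹ ((g : V ≃ᵃ[ℝ] V) 0, 1) = (0, 1) := by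
      rw [← h1]
      exact DFunLike.congr_fun (liftA_inv_mul (g : V ≃ᵃ[ℝ] V)) ((0 : V), (1 : ℝ))
    have h3 : (U.adH g ξ : EndE V) ((g : V ≃ᵃ[ℝ] V) 0, 1) =
        ((g : V ≃ᵃ[ℝ] V).linear (conE (ξ : EndE V)), 0) := by
      change liftA (g : V ≃ᵃ[ℝ] V) ((ξ : EndE V) (liftA (g : V ≃ᵃ[ℝ] V)⁻¹
        ((g : V ≃ᵃ[ℝ] V) 0, 1))) = _
      rw [h2, app_field (isField ξ.2), map_zero, zero_add, one_smul, liftA_apply, zero_smul,
        add_zero]
    rw [app_field (isField (U.adH g ξ).2), one_smul] at h3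
    exact eq_sub_of_add_eq' (congrArg Prod.fst h3)
  discrete := U.vecAct.discrete H
  lattice := U.vecAct.zlattice H
  L_ad g l hl := U.vecAct.L_ad g l hl
  x₀ := H.conn.nonempty.some
  free ξ h := by
    refine U.vecAct.free H H.conn.nonempty.some_mem ?_
    set x₀ := H.conn.nonempty.some with hx₀
    have h1 : (ξ : EndE V) (x₀, 1) = 0 := by
      rw [app_field (isField ξ.2), one_smul]
      exact Prod.ext h rfl
    have h2 := exp_sub_mem (U.isNilpotent ξ.2) (S := ⊥) (y := (x₀, (1 : ℝ)))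
      (by
        intro z hz
        rw [(Submodule.mem_bot ℝ).1 hz, map_zero]
        exact Submodule.zero_mem _)
      (by
        rw [h1, map_zero]
        exact Submodule.zero_mem _)
    rw [h1, sub_zero] at h2
    have h3 := sub_eq_zero.1 ((Submodule.mem_bot ℝ).1 h2)
    exact congrArg Prod.fst h3
  noinv := hinv

end UNormal

end Pool.Agent.Helper77.K4
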