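import Pool.Agent.Helper77.K4.Four

/-!
# Induction along the flag of translations, with a radical in codimension four
-/

set_option autoImplicit false

open Set Module
open scoped commutatorElement

universe u

namespace Pool.Agent.Helper77.K4

open Pool.Agent.Helper77.KT

section

variable {V Q : Type*} [NormedAddCommGroup V] [NormedSpace ℝ V] [NormedAddCommGroup Q]
  [NormedSpace ℝ Q]

/-- A subgroup of finite index of `Γ` has a normal subgroup which acts on `V ⧸ F` through an infinite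
solvable group. -/
def Rad (Γ : Subgroup (V ≃ᵃ[ℝ] V)) (F : Submodule ℝ V) : Prop :=
  ∃ H S : Subgroup (V ≃ᵃ[ℝ] V), H ≤ Γ ∧
    (∃ T : Set (V ≃ᵃ[ℝ] V), T.Finite ∧ ∀ γ ∈ Γ, ∃ t ∈ T, t * γ ∈ H) ∧ S ≤ H ∧
    (∀ h ∈ H, ∀ s ∈ S, h * s * h⁻¹ ∈ S) ∧ (∃ n, ∀ s ∈ dser S n, ∀ x, s x - x ∈ F) ∧
    ∀ T : Set (V ≃ᵃ[ℝ] V), T.Finite → ∃ s ∈ S, ∀ t ∈ T, ∃ x, s x - t x ∉ F

theorem dser_quotGroup {S : Subgroup (V ≃ᵃ[ℝ] V)} {π : V →ₗ[ℝ] Q} (hπ : Function.Surjective π)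
    (n : ℕ) : dser (quotGroup S π hπ) n ≤ quotGroup (dser S n) π hπ := by
  induction n with
  | zero => exact le_rfl
  | succ n ih =>
    refine (Subgroup.commutator_mono ih ih).trans ?_
    rw [Subgroup.commutator_le]
    rintro a ⟨α, hα, h⟩ b ⟨β, hβ, h'⟩
    refine ⟨⁅α, β⁆, Subgroup.commutator_mem_commutator hα hβ, fun x => ?_⟩
    have ha : ∀ x, a.symm (π x) = π (α.symm x) := by
      intro x
      rw [AffineEquiv.symm_apply_eq, h, AffineEquiv.apply_symm_apply]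
    have hb : ∀ x, b.symm (π x) = π (β.symm x) := by
      intro x
      rw [AffineEquiv.symm_apply_eq, h', AffineEquiv.apply_symm_apply]
    change a (b (a.symm (b.symm (π x)))) = π (α (β (α.symm (β.symm x))))
    rw [hb, ha, h', h]

/-- The condition passes to the quotient. -/
theorem Rad.quot {Γ : Subgroup (V ≃ᵃ[ℝ] V)} {π : V →ₗ[ℝ] Q} (hπ : Function.Surjective π)
    (hker : LinearMap.ker π = tspan Γ) {F : Submodule ℝ Q} (h : Rad Γ (F.comap π)) :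
    Rad (quotGroup Γ π hπ) F := by
  classical
  obtain ⟨H, S, hH, ⟨T, hT, hrep⟩, hS, hnorm, ⟨n, hn⟩, hinf⟩ := h
  have hdesc : ∀ γ ∈ Γ, ∃ β : Q ≃ᵃ[ℝ] Q, ∀ x, β (π x) = π (γ x) := fun γ hγ =>
    exists_descent π hπ hker hγ
  refine ⟨quotGroup H π hπ, quotGroup S π hπ, ?_, ?_, ?_, ?_, ⟨n, ?_⟩, ?_⟩
  · rintro β ⟨γ, hγ, h⟩
    exact ⟨γ, hH hγ, h⟩
  · refine ⟨{β | ∃ t ∈ T, ∀ x, β (π x) = π (t x)}, ?_, ?_⟩
    · have h1 : {β : Q ≃ᵃ[ℝ] Q | ∃ t ∈ T, ∀ x, β (π x) = π (t x)} =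
          ⋃ t ∈ T, {β : Q ≃ᵃ[ℝ] Q | ∀ x, β (π x) = π (t x)} := by
        ext β
        simp
      rw [h1]
      refine hT.biUnion fun t _ => Set.Subsingleton.finite ?_
      intro β hβ β' hβ'
      apply AffineEquiv.ext
      intro q
      obtain ⟨x, rfl⟩ := hπ q
      rw [hβ, hβ']
    · rintro β ⟨γ, hγ, h⟩
      obtain ⟨t, ht, htγ⟩ := hrep γ hγ
      have htΓ : t ∈ Γ := by
        have h1 := Γ.mul_mem (hH htγ) (Γ.inv_mem hγ)
        rwa [mul_inv_cancel_right] at h1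
      obtain ⟨τ, hτ⟩ := hdesc t htΓ
      refine ⟨τ, ⟨t, ht, hτ⟩, t * γ, htγ, fun x => ?_⟩
      change τ (β (π x)) = π (t (γ x))
      rw [h, hτ]
  · rintro β ⟨γ, hγ, h⟩
    exact ⟨γ, hS hγ, h⟩
  · rintro a ⟨α, hα, h⟩ b ⟨β, hβ, h'⟩
    refine ⟨α * β * α⁻¹, hnorm α hα β hβ, fun x => ?_⟩
    have ha : ∀ x, a.symm (π x) = π (α.symm x) := by
      intro x
      rw [AffineEquiv.symm_apply_eq, h, AffineEquiv.apply_symm_apply]
    change a (b (a.symm (π x))) = π (α (β (α.symm x)))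
    rw [ha, h', h]
  · intro β hβ y
    obtain ⟨s, hs, h⟩ := dser_quotGroup hπ n hβ
    obtain ⟨x, rfl⟩ := hπ y
    rw [h, ← map_sub]
    exact hn s hs x
  · intro T' hT'
    by_contra hcon
    push_neg at hcon
    have h1 : ∀ β' : Q ≃ᵃ[ℝ] Q, ∃ t : V ≃ᵃ[ℝ] V,
        (∃ s ∈ S, ∀ x, π (s x) - β' (π x) ∈ F) → ∀ x, π (t x) - β' (π x) ∈ F := by
      intro β'
      by_cases hex : ∃ s ∈ S, ∀ x, π (s x) - β' (π x) ∈ F
      · obtain ⟨s, _, hs⟩ := hex
        exact ⟨s, fun _ => hs⟩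
      · exact ⟨1, fun h => absurd h hex⟩
    choose f hf using h1
    obtain ⟨s, hs, hne⟩ := hinf (f '' T') (hT'.image f)
    obtain ⟨β, hβ⟩ := hdesc s (hH (hS hs))
    obtain ⟨β', hβ', h2⟩ := hcon β ⟨s, hs, hβ⟩
    have h3 : ∀ x, π (s x) - β' (π x) ∈ F := by
      intro x
      rw [← hβ]
      exact h2 (π x)
    obtain ⟨x, hx⟩ := hne (f β') ⟨β', hβ', rfl⟩
    apply hx
    rw [Submodule.mem_comap, map_sub]
    have h4 := F.sub_mem (h3 x) (hf β' ⟨s, hs, h3⟩ x)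
    rwa [sub_sub_sub_cancel_right] at h4

/-- The condition for the trivial subspace. -/
theorem Rad.bot {Γ : Subgroup (V ≃ᵃ[ℝ] V)} (h : Rad Γ ⊥) :
    ∃ H S : Subgroup (V ≃ᵃ[ℝ] V), H ≤ Γ ∧ (H.subgroupOf Γ).FiniteIndex ∧ S ≤ H ∧
      (∀ h ∈ H, ∀ s ∈ S, h * s * h⁻¹ ∈ S) ∧ (∃ k, dser S k = ⊥) ∧
      (S : Set (V ≃ᵃ[ℝ] V)).Infinite := by
  obtain ⟨H, S, hH, ⟨T, hT, hrep⟩, hS, hnorm, ⟨n, hn⟩, hinf⟩ := h
  refine ⟨H, S, hH, finiteIndex_of_reps hT hrep, hS, hnorm, ⟨n, ?_⟩, fun hfin => ?_⟩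
  · rw [eq_bot_iff]
    intro s hs
    rw [Subgroup.mem_bot]
    apply AffineEquiv.ext
    intro x
    exact sub_eq_zero.1 ((Submodule.mem_bot ℝ).1 (hn s hs x))
  · obtain ⟨s, hs, h⟩ := hinf S hfin
    obtain ⟨x, hx⟩ := h s hs
    apply hx
    rw [sub_self]
    exact Submodule.zero_mem _

end

/-- Kleinian data whose flag of translations has a member of codimension at most three, or of
codimension at most four and with a radical, is complete. -/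
theorem main_aux (k : ℕ) :
    ∀ (V : Type u) [NormedAddCommGroup V] [NormedSpace ℝ V] [FiniteDimensional ℝ V]
      (Γ : Subgroup (V ≃ᵃ[ℝ] V)) (Ω : Set V), Klein Γ Ω →
      finrank ℝ V ≤ finrank ℝ (flag Γ k) + 4 → Rad Γ (flag Γ k) → Ω = univ := by
  induction k with
  | zero =>
    intro V _ _ _ Γ Ω H h hR
    have h1 : finrank ℝ (flag Γ 0) = 0 := finrank_bot ℝ V
    rw [h1, zero_add] at h
    rcases Nat.lt_or_ge (finrank ℝ V) 4 with h2 | h2
    · exact H.base (fun Γ hΓ => KT3.selberg_aff Γ hΓ) (by omega)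
    · obtain ⟨K, S, hK, hfi, hS, hnorm, hsol, hinf⟩ := Rad.bot hR
      exact univ_of_solvable H hK hfi hS hnorm hsol hinf (le_antisymm h h2)
  | succ k ih =>
    intro V _ _ _ Γ Ω H h hR
    have hcl : IsClosed ((tspan Γ : Submodule ℝ V) : Set V) :=
      Submodule.closed_of_finiteDimensional _
    let π : V →ₗ[ℝ] (V ⧸ tspan Γ) := (tspan Γ).mkQ
    have hπ : Function.Surjective π := Submodule.mkQ_surjective _
    have hker : LinearMap.ker π = tspan Γ := Submodule.ker_mkQ _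
    have H' : Klein (quotGroup Γ π hπ) (π '' Ω) := H.quot hπ hker
    have h1 : finrank ℝ (V ⧸ tspan Γ) + finrank ℝ (tspan Γ) = finrank ℝ V :=
      Submodule.finrank_quotient_add_finrank _
    have h2 := finrank_comap_add hπ (flag (quotGroup Γ π hπ) k)
    rw [← flag_succ hπ hker, hker] at h2
    rw [flag_succ hπ hker] at hR
    have h3 := ih (V ⧸ tspan Γ) (quotGroup Γ π hπ) (π '' Ω) H' (by omega) (hR.quot hπ hker)
    rw [eq_univ_iff_forall]
    intro x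
    refine H.mem_of_image hker (x := x) ?_
    rw [h3]
    exact mem_univ _

end Pool.Agent.Helper77.K4
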