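import Pool.Agent.Helper77.K4.Orb

/-!
# Open orbits, and virtually solvable linear parts
-/

set_option autoImplicit false

open Set Module Filter Topology
open scoped commutatorElement

namespace Pool.Agent.Helper77.K4

open Pool.Agent.SOL Pool.Agent.Helper77.KT

section

variable {G : Type*} [Group G]

theorem dser_one_eq_bot {K : Subgroup G} (h : ∀ x ∈ K, ∀ y ∈ K, x * y = y * x) :
    dser K 1 = ⊥ := by
  change ⁅K, K⁆ = ⊥
  rw [eq_bot_iff, Subgroup.commutator_le]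
  intro x hx y hy
  rw [Subgroup.mem_bot, commutatorElement_eq_one_iff_mul_comm]
  exact h x hx y hy

theorem dser_succ_eq_bot {K : Subgroup G} {k : ℕ}
    (h : ∀ x ∈ dser K k, ∀ y ∈ dser K k, x * y = y * x) : dser K (k + 1) = ⊥ := by
  change ⁅dser K k, dser K k⁆ = ⊥
  rw [eq_bot_iff, Subgroup.commutator_le]
  intro x hx y hy
  rw [Subgroup.mem_bot, commutatorElement_eq_one_iff_mul_comm]
  exact h x hx y hy

end

variable {V : Type*} [NormedAddCommGroup V] [NormedSpace ℝ V]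
  {Γ : Subgroup (V ≃ᵃ[ℝ] V)}

/-- If the linear parts are virtually solvable then so is the group. -/
theorem solvable_of_vsec (h : VSec Γ.subtype (⊥ : Submodule ℝ V) ⊤) :
    ∃ K : Subgroup Γ, K.FiniteIndex ∧ ∃ k, dser K k = ⊥ := by
  obtain ⟨K, hK, k, hk⟩ := h
  refine ⟨K, hK, k + 1, dser_succ_eq_bot ?_⟩
  have h1 : ∀ x ∈ dser K k, ∀ z : V, (x : V ≃ᵃ[ℝ] V) z = (x : V ≃ᵃ[ℝ] V) 0 + z := by
    intro x hx z
    have h2 := hk x hx z Submodule.mem_top
    rw [Submodule.mem_bot, sub_eq_zero] at h2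
    have h3 := map_add' (x : V ≃ᵃ[ℝ] V) 0 z
    rw [zero_add] at h3
    rw [h3]
    congr 1
  intro x hx y hy
  apply Subtype.ext
  apply AffineEquiv.ext
  intro z
  change (x : V ≃ᵃ[ℝ] V) ((y : V ≃ᵃ[ℝ] V) z) = (y : V ≃ᵃ[ℝ] V) ((x : V ≃ᵃ[ℝ] V) z)
  rw [h1 x hx ((y : V ≃ᵃ[ℝ] V) z), h1 y hy z, h1 y hy ((x : V ≃ᵃ[ℝ] V) z), h1 x hx z]
  abel

namespace UNormal

variable [FiniteDimensional ℝ V] {N : Subgroup (V ≃ᵃ[ℝ] V)} (U : UNormal Γ N) {Ω : Set V}
  (H : Klein Γ Ω)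

include U H in
/-- If the hull has the dimension of `V` then `N` has finite index. -/
theorem finiteIndex_of_finrank (hE : finrank ℝ (hullE N) = finrank ℝ V) :
    (N.subgroupOf Γ).FiniteIndex := by
  -- the fields span `V` at the points of `Ω`
  have hT : ∀ x ∈ Ω, ∀ u ∈ (⊤ : Submodule ℝ V), ∃ ξ : hullE N,
      linE (ξ : EndE V) x + conE (ξ : EndE V) = u := by
    intro x hx u _
    let T : hullE N →ₗ[ℝ] V :=
      { toFun := fun ξ => linE (ξ : EndE V) x + conE (ξ : EndE V)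
        map_add' := fun ξ η => by
          change linE ((ξ : EndE V) + (η : EndE V)) x + conE ((ξ : EndE V) + (η : EndE V)) = _
          rw [map_add, map_add, LinearMap.add_apply]
          abel
        map_smul' := fun c ξ => by
          change linE (c • (ξ : EndE V)) x + conE (c • (ξ : EndE V)) =
            c • (linE (ξ : EndE V) x + conE (ξ : EndE V))
          rw [map_smul, map_smul, LinearMap.smul_apply, smul_add] }
    have hinj : Function.Injective T := by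
      rw [injective_iff_map_eq_zero]
      intro ξ hξ
      exact U.indep H hx hξ
    have hsurj : Function.Surjective T := by
      rw [← LinearMap.range_eq_top]
      refine Submodule.eq_top_of_finrank_eq ?_
      rw [LinearMap.finrank_range_of_inj hinj]
      exact hE
    exact hsurj u
  have hsat : ∀ x ∈ Ω, ∀ ξ, U.fl ξ x ∈ Ω := fun x hx ξ => U.vecAct.saturated H hx ξ
  have hnh : ∀ x ∈ Ω, {y : V | ∃ ξ, y = U.fl ξ x} ∈ 𝓝 x := by
    intro x hx
    have h1 := U.range_mem_nhds (W := ⊤) (fun _ _ => Submodule.mem_top)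
      (fun _ => Submodule.mem_top) (hT x hx)
    have h2 : Tendsto (fun y : V => (⟨y - x, Submodule.mem_top⟩ : (⊤ : Submodule ℝ V))) (𝓝 x)
        (𝓝 0) := by
      have h3 : Continuous fun y : V => (⟨y - x, Submodule.mem_top⟩ : (⊤ : Submodule ℝ V)) :=
        (continuous_id.sub continuous_const).subtype_mk _
      have h4 := h3.tendsto x
      simp only [sub_self] at h4
      exact h4
    filter_upwards [h2 h1] with y hy
    obtain ⟨ξ, hξ⟩ := hy
    refine ⟨ξ, ?_⟩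
    rw [← hξ]
    exact (add_sub_cancel x y).symm
  have ho : ∀ x ∈ Ω, IsOpen {y : V | ∃ ξ, y = U.fl ξ x} := by
    intro x hx
    rw [isOpen_iff_mem_nhds]
    rintro _ ⟨ξ, rfl⟩
    filter_upwards [hnh _ (hsat x hx ξ)] with y hy
    obtain ⟨η, rfl⟩ := hy
    refine ⟨η + ξ, ?_⟩
    rw [U.fl_add]
    rfl
  obtain ⟨x₀, hx₀⟩ := H.conn.nonempty
  have horb : Ω ⊆ {y : V | ∃ ξ, y = U.fl ξ x₀} := by
    refine IsPreconnected.subset_left_of_subset_union (ho x₀ hx₀)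
      (v := ⋃ y ∈ Ω \ {y : V | ∃ ξ, y = U.fl ξ x₀}, {z : V | ∃ ξ, z = U.fl ξ y})
      (isOpen_biUnion fun y hy => ho y hy.1) ?_ ?_ ?_ H.conn.isPreconnected
    · rw [Set.disjoint_left]
      rintro z ⟨ξ, hξ⟩ hz
      obtain ⟨y, ⟨_, hy⟩, η, hη⟩ := mem_iUnion₂.1 hz
      apply hy
      refine ⟨-η + ξ, ?_⟩
      rw [U.fl_add]
      change y = U.fl (-η) (U.fl ξ x₀)
      rw [← hξ, hη, U.fl_neg]
      exact ((U.fl η).symm_apply_apply _).symm
    · intro y hy
      by_cases h : y ∈ {y : V | ∃ ξ, y = U.fl ξ x₀}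
      · exact Or.inl h
      · refine Or.inr (mem_biUnion (x := y) ⟨hy, h⟩ ⟨0, ?_⟩)
        rw [U.fl_zero]
        rfl
    · exact ⟨x₀, hx₀, 0, by rw [U.fl_zero]; rfl⟩
  obtain ⟨F, hF, h0, hrep⟩ := U.vecAct.exists_rep H
  have hK : IsCompact ((fun ξ => U.fl ξ x₀) '' F) := by
    refine hF.image ?_
    have h1 : Continuous fun p : hullE N × V => U.fl p.1 p.2 := U.vecAct.cont
    exact h1.comp (continuous_id.prodMk continuous_const)
  have hKΩ : (fun ξ => U.fl ξ x₀) '' F ⊆ Ω := by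
    rintro _ ⟨ξ, _, rfl⟩
    exact hsat x₀ hx₀ ξ
  refine finiteIndex_of_reps (H.proper _ hKΩ hK) fun γ hγ => ?_
  obtain ⟨ξ, hξ⟩ := horb (H.inv _ (Γ.inv_mem hγ) x₀ hx₀)
  obtain ⟨l, hl, hlF⟩ := hrep ξ
  have hlN : U.fl l ∈ N := hl
  refine ⟨(U.fl l)⁻¹ * γ⁻¹, ⟨Γ.mul_mem (Γ.inv_mem (U.le hlN)) (Γ.inv_mem hγ), ?_⟩, ?_⟩
  · refine ⟨U.fl (ξ - l) x₀, ⟨x₀, ⟨0, h0, ?_⟩, ?_⟩, ⟨ξ - l, hlF, rfl⟩⟩
    · change U.fl 0 x₀ = x₀
      rw [U.fl_zero]
      rfl
    · change (U.fl l)⁻¹ (γ⁻¹ x₀) = U.fl (ξ - l) x₀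
      rw [hξ, ← U.fl_neg]
      change (U.fl (-l) * U.fl ξ) x₀ = _
      rw [← U.fl_add]
      have h2 : (-l + ξ : hullE N) = ξ - l := neg_add_eq_sub l ξ
      exact congrArg (fun η => U.fl η x₀) h2
  · rw [inv_mul_cancel_right]
    exact N.inv_mem hlN

end UNormal

end Pool.Agent.Helper77.K4
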