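import Pool.Agent.Helper77.K4.Fin
import Pool.Agent.Helper77.K4.Hull

/-!
# Orbits of the hull
-/

set_option autoImplicit false

open Set Module Filter Topology

namespace Pool.Agent.Helper77.K4

open Pool.Agent.SOL Pool.Agent.Helper77.KT

/-- The orbit map of a linear family of fields is open at the origin. -/
theorem nhds_of_surj {V : Type*} [NormedAddCommGroup V] [NormedSpace ℝ V] [FiniteDimensional ℝ V]
    {E : Type*} [NormedAddCommGroup E] [NormedSpace ℝ E] [FiniteDimensional ℝ E]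
    (ι : E →L[ℝ] EndE V) (W : Submodule ℝ V) (x : V)
    (hW : ∀ ξ, ((NormedSpace.exp (ι ξ) : EndE V) (x, 1)).1 - x ∈ W)
    (hT : ∀ u ∈ W, ∃ ξ, (ι ξ (x, 1)).1 = u) :
    {u : W | ∃ ξ, x + u = ((NormedSpace.exp (ι ξ) : EndE V) (x, 1)).1} ∈ 𝓝 (0 : W) := by
  have : CompleteSpace (EndE V) := FiniteDimensional.complete ℝ _
  have : CompleteSpace W := FiniteDimensional.complete ℝ _
  have : CompleteSpace E := FiniteDimensional.complete ℝ _
  obtain ⟨p, hp⟩ := LinearMap.exists_leftInverse_of_injective W.subtype (Submodule.ker_subtype W)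
  have hp' : ∀ u : W, p u = u := fun u => DFunLike.congr_fun hp u
  let P : V →L[ℝ] W := LinearMap.toContinuousLinearMap p
  let ev : EndE V →L[ℝ] V := (ContinuousLinearMap.fst ℝ V ℝ).comp
    (ContinuousLinearMap.apply ℝ (V × ℝ) (x, (1 : ℝ)))
  let f : E → W := fun ξ => P (ev (NormedSpace.exp (ι ξ)) - x)
  have h0 : HasStrictFDerivAt (NormedSpace.exp : EndE V → EndE V) (1 : EndE V →L[ℝ] EndE V)
      (ι 0) := by
    rw [map_zero]
    exact hasStrictFDerivAt_exp_zero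
  have h1 : HasStrictFDerivAt (fun ξ : E => (NormedSpace.exp (ι ξ) : EndE V))
      ((1 : EndE V →L[ℝ] EndE V).comp ι) (0 : E) :=
    h0.comp (0 : E) ι.hasStrictFDerivAt
  have h2 : HasStrictFDerivAt f (P.comp (ev.comp ((1 : EndE V →L[ℝ] EndE V).comp ι))) (0 : E) :=
    P.hasStrictFDerivAt.comp _ ((ev.hasStrictFDerivAt.comp _ h1).sub_const x)
  have h3 : LinearMap.range ((P.comp (ev.comp ((1 : EndE V →L[ℝ] EndE V).comp ι)) : E →L[ℝ] W) :
      E →ₗ[ℝ] W) = ⊤ := by
    rw [LinearMap.range_eq_top]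
    intro u
    obtain ⟨ξ, hξ⟩ := hT u u.2
    refine ⟨ξ, ?_⟩
    change p ((ι ξ (x, 1)).1) = u
    rw [hξ]
    exact hp' u
  have h4 := h2.map_nhds_eq_of_surj h3
  have h5 : f 0 = 0 := by
    change P (ev (NormedSpace.exp (ι 0)) - x) = 0
    rw [map_zero, NormedSpace.exp_zero]
    change P (x - x) = 0
    rw [sub_self, map_zero]
  rw [h5] at h4
  rw [← h4, Filter.mem_map]
  filter_upwards with ξ
  refine ⟨ξ, ?_⟩
  have h7 : f ξ = ⟨_, hW ξ⟩ := hp' ⟨_, hW ξ⟩
  rw [h7]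
  exact add_sub_cancel x _

namespace UNormal

variable {V : Type*} [NormedAddCommGroup V] [NormedSpace ℝ V] [FiniteDimensional ℝ V]
  {Γ N : Subgroup (V ≃ᵃ[ℝ] V)} (U : UNormal Γ N)

theorem fl_sub_mem (ξ : hullE N) (x : V) {W : Submodule ℝ V}
    (hX : ∀ v, linE (ξ : EndE V) v ∈ W) : U.fl ξ x - x - conE (ξ : EndE V) ∈ W := by
  have h1 := exp_sub_mem (U.isNilpotent ξ.2) (S := W.prod ⊥) (y := (x, (1 : ℝ)))
    (by
      rintro ⟨z, t⟩ ⟨_, ht⟩
      rw [SetLike.mem_coe, Submodule.mem_bot] at ht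
      simp only at ht
      rw [ht, app_field (isField ξ.2), zero_smul, add_zero]
      exact ⟨hX z, rfl⟩)
    (by
      rw [app_field (isField ξ.2) x, app_field (isField ξ.2), zero_smul, add_zero]
      exact ⟨hX _, rfl⟩)
  have h2 := h1.1
  rw [app_field (isField ξ.2) x, one_smul] at h2
  change U.fl ξ x - x - (linE (ξ : EndE V) x + conE (ξ : EndE V)) ∈ W at h2
  have h3 := W.add_mem h2 (hX x)
  have h4 : U.fl ξ x - x - (linE (ξ : EndE V) x + conE (ξ : EndE V)) + linE (ξ : EndE V) x =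
      U.fl ξ x - x - conE (ξ : EndE V) := by abel
  rwa [h4] at h3

theorem fl_sub_mem' (ξ : hullE N) (x : V) {W : Submodule ℝ V}
    (hX : ∀ v, linE (ξ : EndE V) v ∈ W) (hw : conE (ξ : EndE V) ∈ W) : U.fl ξ x - x ∈ W := by
  have h1 := W.add_mem (U.fl_sub_mem ξ x hX) hw
  rwa [sub_add_cancel] at h1

theorem range_mem_nhds {W : Submodule ℝ V} (hX : ∀ (ξ : hullE N) v, linE (ξ : EndE V) v ∈ W)
    (hw : ∀ ξ : hullE N, conE (ξ : EndE V) ∈ W) {x : V}
    (hT : ∀ u ∈ W, ∃ ξ : hullE N, linE (ξ : EndE V) x + conE (ξ : EndE V) = u) :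
    {u : W | ∃ ξ, x + u = U.fl ξ x} ∈ 𝓝 (0 : W) := by
  refine nhds_of_surj (E := hullE N) (hullE N).subtypeL W x ?_ ?_
  · intro ξ
    exact U.fl_sub_mem' ξ x (hX ξ) (hw ξ)
  · intro u hu
    obtain ⟨ξ, hξ⟩ := hT u hu
    refine ⟨ξ, ?_⟩
    change ((ξ : EndE V) (x, 1)).1 = u
    rw [app_field (isField ξ.2), one_smul]
    exact hξ

/-- If the fields span the invariant subspace `W` at every point then the orbits are the cosets. -/
theorem exists_fl_eq {W : Submodule ℝ V} (hX : ∀ (ξ : hullE N) v, linE (ξ : EndE V) v ∈ W)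
    (hw : ∀ ξ : hullE N, conE (ξ : EndE V) ∈ W)
    (hT : ∀ x, ∀ u ∈ W, ∃ ξ : hullE N, linE (ξ : EndE V) x + conE (ξ : EndE V) = u)
    (x y : V) (hxy : y - x ∈ W) : ∃ ξ, y = U.fl ξ x := by
  -- the orbits are open
  have ho : ∀ x : V, IsOpen {u : W | ∃ ξ, x + u = U.fl ξ x} := by
    intro x
    rw [isOpen_iff_mem_nhds]
    rintro u ⟨ξ₀, hξ₀⟩
    have h1 := U.range_mem_nhds hX hw (hT (U.fl ξ₀ x))
    have h2 : Tendsto (fun u' : W => u' - u) (𝓝 u) (𝓝 0) := by
      have h3 : Tendsto (fun u' : W => u' - u) (𝓝 u) (𝓝 (u - u)) :=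
        tendsto_id.sub tendsto_const_nhds
      rwa [sub_self] at h3
    filter_upwards [h2 h1] with u' hu'
    obtain ⟨η, hη⟩ := hu'
    refine ⟨η + ξ₀, ?_⟩
    rw [U.fl_add]
    change x + (u' : V) = U.fl η (U.fl ξ₀ x)
    rw [← hη, ← hξ₀]
    rw [Submodule.coe_sub]
    abel
  have hcl : IsClosed {u : W | ∃ ξ, x + u = U.fl ξ x} := by
    rw [← isOpen_compl_iff, isOpen_iff_mem_nhds]
    intro u hu
    have h1 := ho (x + u)
    have h2 : Tendsto (fun u' : W => u' - u) (𝓝 u) (𝓝 0) := by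
      have h3 : Tendsto (fun u' : W => u' - u) (𝓝 u) (𝓝 (u - u)) :=
        tendsto_id.sub tendsto_const_nhds
      rwa [sub_self] at h3
    have h4 : {v : W | ∃ ξ, x + (u : V) + v = U.fl ξ (x + u)} ∈ 𝓝 (0 : W) := by
      refine h1.mem_nhds ⟨0, ?_⟩
      rw [U.fl_zero]
      change x + (u : V) + ((0 : W) : V) = x + u
      rw [Submodule.coe_zero, add_zero]
    filter_upwards [h2 h4] with u' hu' hu''
    obtain ⟨η, hη⟩ := hu'
    obtain ⟨ζ, hζ⟩ := hu''
    apply hu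
    refine ⟨-η + ζ, ?_⟩
    have h5 : x + (u : V) + ((u' - u : W) : V) = x + u' := by
      rw [Submodule.coe_sub]
      abel
    rw [h5] at hη
    rw [U.fl_add]
    change x + (u : V) = U.fl (-η) (U.fl ζ x)
    rw [← hζ, hη, U.fl_neg]
    exact ((U.fl η).symm_apply_apply _).symm
  have h1 : {u : W | ∃ ξ, x + u = U.fl ξ x} = univ := by
    refine IsClopen.eq_univ ⟨hcl, ho x⟩ ⟨0, 0, ?_⟩
    rw [U.fl_zero]
    change x + ((0 : W) : V) = x
    rw [Submodule.coe_zero, add_zero]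
  have h2 : (⟨y - x, hxy⟩ : W) ∈ {u : W | ∃ ξ, x + u = U.fl ξ x} := by
    rw [h1]
    exact mem_univ _
  obtain ⟨ξ, hξ⟩ := h2
  refine ⟨ξ, ?_⟩
  rw [← hξ]
  exact (add_sub_cancel x y).symm

theorem det_fl (ξ : hullE N) : LinearMap.det ((U.fl ξ).linear : V →ₗ[ℝ] V) = 1 :=
  det_flow (isField ξ.2) (U.isNilpotent ξ.2)

include U in
/-- The fields are independent at the points of `Ω`. -/
theorem indep {Ω : Set V} (H : Klein Γ Ω) {x : V} (hx : x ∈ Ω) {ξ : hullE N}
    (h : linE (ξ : EndE V) x + conE (ξ : EndE V) = 0) : ξ = 0 := by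
  refine U.vecAct.free H hx ?_
  have h1 : (ξ : EndE V) (x, 1) = 0 := by
    rw [app_field (isField ξ.2), one_smul]
    exact Prod.ext h rfl
  have h2 := exp_sub_mem (U.isNilpotent ξ.2) (S := ⊥) (y := (x, (1 : ℝ)))
    (by
      intro z hz
      rw [(Submodule.mem_bot ℝ).1 hz, map_zero]
      exact Submodule.zero_mem _)
    (by
      rw [h1, map_zero]
      exact Submodule.zero_mem _)
  rw [h1, sub_zero] at h2
  have h3 := sub_eq_zero.1 ((Submodule.mem_bot ℝ).1 h2)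
  exact congrArg Prod.fst h3

section types

variable {Ω : Set V} (H : Klein Γ Ω)
    (hinv : ∀ K : Subgroup Γ, K.FiniteIndex → ∀ Z : AffineSubspace ℝ V, (Z : Set V).Nonempty →
      (∀ g ∈ K, ∀ x ∈ Z, (g : V ≃ᵃ[ℝ] V) x ∈ Z) → Z = ⊤)

theorem univ_of_sType {K : Subgroup Γ} (hK : K.FiniteIndex) (hV : finrank ℝ V = 4)
    (hE : 1 ≤ finrank ℝ (hullE N)) (h : (U.lieData H hinv).SType K) : Ω = univ := by
  obtain ⟨W, hW, hX, hb⟩ := h
  have hle : K.map Γ.subtype ≤ Γ := Subgroup.map_subtype_le K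
  have hfi : ((K.map Γ.subtype).subgroupOf Γ).FiniteIndex := by
    rwa [subgroupOf_map_subtype']
  let τ : hullE N ≃ₗ[ℝ] (V ⧸ W) := LinearEquiv.ofBijective (W.mkQ.comp (U.lieData H hinv).w) hb
  have hfr : finrank ℝ (hullE N) = finrank ℝ (V ⧸ W) := LinearEquiv.finrank_eq τ
  have hfr' := Submodule.finrank_quotient_add_finrank W
  refine (U.vecAct.restrict hle hfi).univ_of_slice (H.of_finiteIndex hle hfi) W ?_ τ ?_
    (fun ξ => U.det_fl ξ) (by omega)
  · rintro _ ⟨g, hg, rfl⟩ v hv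
    exact hW g hg v hv
  · intro ξ x
    have h1 := U.fl_sub_mem ξ x (hX ξ)
    rw [← Submodule.ker_mkQ W, LinearMap.mem_ker, map_sub, map_sub] at h1
    change W.mkQ (U.fl ξ x) = W.mkQ x + W.mkQ (conE (ξ : EndE V))
    rw [sub_sub, sub_eq_zero] at h1
    exact h1

theorem univ_of_qType {K : Subgroup Γ} (hK : K.FiniteIndex) (hV : finrank ℝ V = 4)
    (hE : 1 ≤ finrank ℝ (hullE N)) (h : (U.lieData H hinv).QType K) : Ω = univ := by
  obtain ⟨W, hW, hX, hw, hd, hT, hdet⟩ := h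
  have hle : K.map Γ.subtype ≤ Γ := Subgroup.map_subtype_le K
  have hfi : ((K.map Γ.subtype).subgroupOf Γ).FiniteIndex := by
    rwa [subgroupOf_map_subtype']
  have hT' : ∀ x, ∀ u ∈ W, ∃ ξ : hullE N, linE (ξ : EndE V) x + conE (ξ : EndE V) = u := by
    intro x u hu
    let T : hullE N →ₗ[ℝ] W :=
      { toFun := fun ξ => ⟨linE (ξ : EndE V) x + conE (ξ : EndE V),
          W.add_mem (hX ξ x) (hw ξ)⟩
        map_add' := fun ξ η => by
          apply Subtype.ext
          change linE ((ξ : EndE V) + (η : EndE V)) x + conE ((ξ : EndE V) + (η : EndE V)) = _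
          rw [map_add, map_add, LinearMap.add_apply]
          change _ = linE (ξ : EndE V) x + conE (ξ : EndE V) +
            (linE (η : EndE V) x + conE (η : EndE V))
          abel
        map_smul' := fun c ξ => by
          apply Subtype.ext
          change linE (c • (ξ : EndE V)) x + conE (c • (ξ : EndE V)) =
            c • (linE (ξ : EndE V) x + conE (ξ : EndE V))
          rw [map_smul, map_smul, LinearMap.smul_apply, smul_add] }
    have hinj : Function.Injective T := by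
      rw [injective_iff_map_eq_zero]
      intro ξ hξ
      exact hT x ξ (congrArg Subtype.val hξ)
    have hsurj : Function.Surjective T :=
      (LinearMap.injective_iff_surjective_of_finrank_eq_finrank hd.symm).1 hinj
    obtain ⟨ξ, hξ⟩ := hsurj ⟨u, hu⟩
    exact ⟨ξ, congrArg Subtype.val hξ⟩
  refine (U.vecAct.restrict hle hfi).univ_of_orbits (H.of_finiteIndex hle hfi) W ?_ ?_ ?_ ?_
    (by omega)
  · rintro _ ⟨g, hg, rfl⟩ v hv
    exact hW g hg v hv
  · intro ξ x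
    exact U.fl_sub_mem' ξ x (hX ξ) (hw ξ)
  · intro x y hxy
    exact U.exists_fl_eq hX hw hT' x y hxy
  · rintro _ ⟨g, hg, rfl⟩ h
    exact hdet g hg h

end types

end UNormal

end Pool.Agent.Helper77.K4
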