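import Pool.Agent.Helper77.K4.Ind

/-!
# The radical, in terms of the deck group
-/

set_option autoImplicit false

open Set Module
open scoped commutatorElement

universe u

namespace Pool.Agent.Helper77.K4

open Pool.Agent.Helper77.KT

section grp

variable {G G' : Type*} [Group G] [Group G']

theorem dser_map (f : G →* G') (S : Subgroup G) (n : ℕ) :
    dser (S.map f) n = (dser S n).map f := by
  induction n with
  | zero => rfl
  | succ n ih =>
    change ⁅_, _⁆ = (⁅_, _⁆ : Subgroup G).map f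
    rw [ih, Subgroup.map_commutator]

theorem dser_top (n : ℕ) : dser (⊤ : Subgroup G) n = derivedSeries G n := by
  induction n with
  | zero => rfl
  | succ n ih =>
    change ⁅_, _⁆ = _
    rw [ih]
    rfl

theorem dser_eq_map (S : Subgroup G) (n : ℕ) : dser S n = (derivedSeries S n).map S.subtype := by
  rw [← dser_top, ← dser_map, ← MonoidHom.range_eq_map, Subgroup.range_subtype]

end grp

variable {V : Type*} [NormedAddCommGroup V] [NormedSpace ℝ V]

theorem rad_of_hom {G : Type*} [Group G] (φ : G →* (V ≃ᵃ[ℝ] V)) (F : Submodule ℝ V)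
    (H : Subgroup G) (hH : H.FiniteIndex) (S : Subgroup H) (hS : S.Normal)
    (hsol : ∃ n, ∀ s ∈ derivedSeries S n, ∀ x, φ ((s : S) : H) x - x ∈ F)
    (hinf : {f : V → V ⧸ F | ∃ s ∈ S, ∀ x, f x = F.mkQ (φ s x)}.Infinite) : Rad φ.range F := by
  refine ⟨H.map φ, (S.map H.subtype).map φ, ?_, ?_, ?_, ?_, ?_, ?_⟩
  · rintro _ ⟨h, _, rfl⟩
    exact ⟨h, rfl⟩
  · have hfin : Finite (G ⧸ H) := Subgroup.finite_quotient_of_finiteIndex
    refine ⟨range fun q : G ⧸ H => φ (q.out)⁻¹, finite_range _, ?_⟩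
    rintro _ ⟨g, rfl⟩
    refine ⟨_, ⟨QuotientGroup.mk g, rfl⟩, (QuotientGroup.mk (s := H) g).out⁻¹ * g, ?_, ?_⟩
    · have h2 : (QuotientGroup.mk (QuotientGroup.mk (s := H) g).out : G ⧸ H) =
          QuotientGroup.mk g := QuotientGroup.out_eq' _
      rwa [QuotientGroup.eq] at h2
    · rw [map_mul]
  · exact Subgroup.map_mono (Subgroup.map_subtype_le S)
  · rintro _ ⟨h, hh, rfl⟩ _ ⟨_, ⟨s, hs, rfl⟩, rfl⟩
    refine ⟨_, ⟨⟨h, hh⟩ * s * ⟨h, hh⟩⁻¹, hS.conj_mem s hs ⟨h, hh⟩, rfl⟩, ?_⟩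
    change φ (h * s * h⁻¹) = _
    rw [map_mul, map_mul, map_inv]
    rfl
  · obtain ⟨n, hn⟩ := hsol
    refine ⟨n, ?_⟩
    rw [dser_map, dser_map, dser_eq_map]
    rintro _ ⟨_, ⟨_, ⟨s, hs, rfl⟩, rfl⟩, rfl⟩ x
    exact hn s hs x
  · intro T hT
    by_contra hcon
    push_neg at hcon
    refine hinf ((hT.image fun t : V ≃ᵃ[ℝ] V => fun x => F.mkQ (t x)).subset ?_)
    rintro f ⟨s, hs, hf⟩
    obtain ⟨t, ht, h⟩ := hcon (φ s) ⟨_, ⟨s, hs, rfl⟩, rfl⟩
    refine ⟨t, ht, funext fun x => ?_⟩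
    rw [hf, eq_comm, ← sub_eq_zero, ← map_sub, ← LinearMap.mem_ker, Submodule.ker_mkQ]
    exact h x

/-- Kleinian data whose flag of translations has a member of codimension at most three, or of
codimension at most four and with a radical, is complete. -/
theorem univ_of_flag {W : Type u} [NormedAddCommGroup W] [NormedSpace ℝ W] [FiniteDimensional ℝ W]
    {Γ : Subgroup (W ≃ᵃ[ℝ] W)} {Ω : Set W} (H : Klein Γ Ω) (k : ℕ)
    (h : finrank ℝ W ≤ finrank ℝ (flag Γ k) + 3 ∨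
      (finrank ℝ W ≤ finrank ℝ (flag Γ k) + 4 ∧ Rad Γ (flag Γ k))) :
    Ω = univ := by
  rcases h with h | ⟨h, h'⟩
  · exact KT.main_aux (fun W _ _ _ Γ hΓ => KT3.selberg_aff Γ hΓ) k W _ _ H h
  · exact main_aux k W Γ Ω H h h'

end Pool.Agent.Helper77.K4
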