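import Pool.Agent.Helper77.K4.Sat

/-!
# The quotient by the vector group
-/

set_option autoImplicit false

open Set MeasureTheory Module Metric Filter Topology
open scoped Pointwise

namespace Pool.Agent.Helper77.K4

open Pool.Agent.Helper77.KT

section

variable {V Q : Type*} [NormedAddCommGroup V] [NormedSpace ℝ V] [NormedAddCommGroup Q]
  [NormedSpace ℝ Q]

/-- The group induced on `Q` by `Γ`, where `P : V → Q`. -/
def indGroup (Γ : Subgroup (V ≃ᵃ[ℝ] V)) {P : V → Q} (hs : Function.Surjective P) :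
    Subgroup (Q ≃ᵃ[ℝ] Q) where
  carrier := {β | ∃ γ ∈ Γ, ∀ x, P (γ x) = β (P x)}
  one_mem' := ⟨1, Γ.one_mem, fun _ => rfl⟩
  mul_mem' := by
    rintro a b ⟨α, hα, h⟩ ⟨β, hβ, h'⟩
    refine ⟨α * β, Γ.mul_mem hα hβ, fun x => ?_⟩
    change P (α (β x)) = a (b (P x))
    rw [h, h']
  inv_mem' := by
    rintro a ⟨α, hα, h⟩
    refine ⟨α⁻¹, Γ.inv_mem hα, fun x => ?_⟩
    change P (α.symm x) = a.symm (P x)
    rw [eq_comm, AffineEquiv.symm_apply_eq, ← h, AffineEquiv.apply_symm_apply]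

end

namespace VecAct

variable {V : Type*} [NormedAddCommGroup V] [NormedSpace ℝ V] [FiniteDimensional ℝ V]
  {Γ : Subgroup (V ≃ᵃ[ℝ] V)} {E : Type*} [NormedAddCommGroup E] [NormedSpace ℝ E]
  [FiniteDimensional ℝ E] (A : VecAct Γ E) {Ω : Set V} (H : Klein Γ Ω)
  {Q : Type*} [NormedAddCommGroup Q] [NormedSpace ℝ Q] [FiniteDimensional ℝ Q]

include H

/-- Compact sets of the quotient are images of compact sets. -/
theorem exists_compact_lift {P : V → Q} (ho : IsOpenMap P) {K : Set Q} (hK : IsCompact K)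
    (hKΩ : K ⊆ P '' Ω) : ∃ K' ⊆ Ω, IsCompact K' ∧ K ⊆ P '' K' := by
  have h1 : ∀ q : Q, ∃ x : V, ∃ r : ℝ, 0 < r ∧ (q ∈ K → P x = q ∧ closedBall x r ⊆ Ω) := by
    intro q
    by_cases hq : q ∈ K
    · obtain ⟨x, hx, hxq⟩ := hKΩ hq
      obtain ⟨r, hr, hrΩ⟩ := Metric.nhds_basis_closedBall.mem_iff.1 (H.isOpen.mem_nhds hx)
      exact ⟨x, r, hr, fun _ => ⟨hxq, hrΩ⟩⟩
    · exact ⟨0, 1, one_pos, fun h => absurd h hq⟩
  choose x r hr hxr using h1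
  obtain ⟨t, htK, ht, htc⟩ := hK.elim_finite_subcover_image (b := K)
    (c := fun q => P '' (ball (x q) (r q))) (fun q _ => ho _ isOpen_ball) (fun q hq =>
      mem_biUnion hq ⟨x q, mem_ball_self (hr q), (hxr q hq).1⟩)
  refine ⟨⋃ q ∈ t, closedBall (x q) (r q), iUnion₂_subset fun q hq => (hxr q (htK hq)).2,
    ht.isCompact_biUnion fun q _ => isCompact_closedBall _ _, ?_⟩
  intro q hq
  obtain ⟨q', hq', y, hy, rfl⟩ := mem_iUnion₂.1 (htc hq)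
  exact ⟨y, mem_biUnion hq' (ball_subset_closedBall hy), rfl⟩

/-- The quotient of Kleinian data by a vector group, when the quotient is an affine space. -/
theorem quot {P : V → Q} (hc : Continuous P) (ho : IsOpenMap P) (hs : Function.Surjective P)
    (hinv : ∀ ξ x, P (A.e ξ x) = P x) (hfib : ∀ x, ∀ y ∈ Ω, P x = P y → ∃ ξ, x = A.e ξ y)
    (hβ : ∀ γ ∈ Γ, ∃ β : Q ≃ᵃ[ℝ] Q, |LinearMap.det (β.linear : Q →ₗ[ℝ] Q)| = 1 ∧
      ∀ x, P (γ x) = β (P x)) : Klein (indGroup Γ hs) (P '' Ω) where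
  isOpen := ho _ H.isOpen
  conn := H.conn.image _ hc.continuousOn
  inv := by
    rintro β ⟨γ, hγ, h⟩ _ ⟨x, hx, rfl⟩
    exact ⟨γ x, H.inv γ hγ x hx, h x⟩
  vol := by
    rintro β ⟨γ, hγ, h⟩
    obtain ⟨β', hβ', h'⟩ := hβ γ hγ
    have h1 : β = β' := by
      apply AffineEquiv.ext
      intro q
      obtain ⟨x, rfl⟩ := hs q
      rw [← h, h']
    rw [h1]
    exact hβ'
  proper := by
    intro K hK hKc
    obtain ⟨K₂, hK₂Ω, hK₂, hKK₂⟩ := exists_compact_lift H ho hKc hK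
    obtain ⟨F, hF, h0, hrep⟩ := A.exists_rep H
    have hK₃ : IsCompact ((fun p : E × V => A.e p.1 p.2) '' (F ×ˢ K₂)) :=
      (hF.prod hK₂).image A.cont
    have hK₃Ω : (fun p : E × V => A.e p.1 p.2) '' (F ×ˢ K₂) ⊆ Ω := by
      rintro _ ⟨⟨ξ, y⟩, ⟨_, hy⟩, rfl⟩
      exact A.saturated H (hK₂Ω hy) ξ
    set K₃ := (fun p : E × V => A.e p.1 p.2) '' (F ×ˢ K₂) with hK₃def
    have h1 := H.proper _ hK₃Ω hK₃
    set S := {γ : V ≃ᵃ[ℝ] V | γ ∈ Γ ∧ (((fun x => γ x) '' K₃) ∩ K₃).Nonempty} with hS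
    have h2 : (⋃ γ ∈ S, {β : Q ≃ᵃ[ℝ] Q | ∀ x, P (γ x) = β (P x)}).Finite := by
      refine h1.biUnion fun γ _ => ?_
      refine Set.Subsingleton.finite ?_
      intro β hβ β' hβ'
      apply AffineEquiv.ext
      intro q
      obtain ⟨x, rfl⟩ := hs q
      rw [← hβ, ← hβ']
    refine h2.subset ?_
    rintro β ⟨⟨γ, hγ, h⟩, _, ⟨k, hk, rfl⟩, hk'⟩
    obtain ⟨x, hx, rfl⟩ := hKK₂ hk
    obtain ⟨y, hy, hy'⟩ := hKK₂ hk'
    have h3 : P (γ x) = P y := by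
      rw [h, hy']
    obtain ⟨ξ, hξ⟩ := hfib _ y (hK₂Ω hy) h3
    obtain ⟨l, hl, hlF⟩ := hrep ξ
    refine mem_biUnion (x := A.e (-l) * γ) ?_ ?_
    · refine ⟨Γ.mul_mem (A.mem _ (A.L.neg_mem hl)) hγ, A.e (-l) (γ x), ⟨x, ?_, rfl⟩, ?_⟩
      · exact ⟨(0, x), ⟨h0, hx⟩, A.e_zero_apply x⟩
      · refine ⟨(ξ - l, y), ⟨hlF, hy⟩, ?_⟩
        change A.e (ξ - l) y = A.e (-l) (γ x)
        rw [hξ, ← A.e_add_apply, neg_add_eq_sub]
    · intro z
      change P (A.e (-l) (γ z)) = β (P z)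
      rw [hinv, h]
  cocompact := by
    obtain ⟨K, hK, hKc, hcov⟩ := H.cocompact
    refine ⟨P '' K, image_mono hK, hKc.image hc, ?_⟩
    rintro _ ⟨x, hx, rfl⟩
    obtain ⟨γ, hγ, hγx⟩ := hcov x hx
    obtain ⟨β, -, hβ⟩ := hβ γ hγ
    exact ⟨β, ⟨γ, hγ, hβ⟩, γ x, hγx, hβ x⟩

/-- If the quotient by a vector group is an affine space of dimension at most three then `Ω = V`. -/
theorem univ_of_quot {P : V → Q} (hc : Continuous P) (ho : IsOpenMap P)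
    (hs : Function.Surjective P)
    (hinv : ∀ ξ x, P (A.e ξ x) = P x) (hfib : ∀ x, ∀ y ∈ Ω, P x = P y → ∃ ξ, x = A.e ξ y)
    (hβ : ∀ γ ∈ Γ, ∃ β : Q ≃ᵃ[ℝ] Q, |LinearMap.det (β.linear : Q →ₗ[ℝ] Q)| = 1 ∧
      ∀ x, P (γ x) = β (P x)) (hQ : finrank ℝ Q ≤ 3) : Ω = univ := by
  have h1 : P '' Ω = univ := (A.quot H hc ho hs hinv hfib hβ).base
    (fun Γ hΓ => KT3.selberg_aff Γ hΓ) hQ
  rw [eq_univ_iff_forall]
  intro x
  have h2 : P x ∈ P '' Ω := by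
    rw [h1]
    exact mem_univ _
  obtain ⟨y, hy, hyx⟩ := h2
  obtain ⟨ξ, hξ⟩ := hfib x y hy hyx.symm
  rw [hξ]
  exact A.saturated H hy ξ

end VecAct

end Pool.Agent.Helper77.K4
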