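import Pool.Agent.Helper77.K4.Quot

/-!
# The two types of affine quotients
-/

set_option autoImplicit false

open Set MeasureTheory Module Metric Filter Topology

namespace Pool.Agent.Helper77.K4

open Pool.Agent.Helper77.KT

section

variable {V : Type*} [NormedAddCommGroup V] [NormedSpace ℝ V]

/-- Restriction of an affine automorphism to an invariant linear subspace. -/
theorem exists_restrict [FiniteDimensional ℝ V] (g : V ≃ᵃ[ℝ] V) (W : Submodule ℝ V)
    (h : ∀ v ∈ W, (g.linear : V →ₗ[ℝ] V) v ∈ W) (h0 : g 0 ∈ W) :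
    ∃ β : W ≃ᵃ[ℝ] W, (∀ y : W, (β y : V) = g y) ∧
      LinearMap.det (β.linear : W →ₗ[ℝ] W) = LinearMap.det ((g.linear : V →ₗ[ℝ] V).restrict h) := by
  let f : W →ₗ[ℝ] W := (g.linear : V →ₗ[ℝ] V).restrict h
  have hf : Function.Injective f := by
    intro x y hxy
    have h1 : g.linear (x : V) = g.linear (y : V) := congrArg Subtype.val hxy
    exact Subtype.ext (g.linear.injective h1)
  let fe : W ≃ₗ[ℝ] W := LinearEquiv.ofInjectiveEndo f hf
  refine ⟨fe.toAffineEquiv.trans (AffineEquiv.constVAdd ℝ W ⟨g 0, h0⟩), fun y => ?_, ?_⟩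
  · change g 0 + g.linear (y : V) = g y
    have h1 := map_add' g 0 (y : V)
    rw [zero_add] at h1
    exact h1.symm
  · congr 1

/-- The affine automorphism induced on the quotient by an invariant linear subspace. -/
theorem exists_quot [FiniteDimensional ℝ V] (g : V ≃ᵃ[ℝ] V) (W : Submodule ℝ V)
    [IsClosed (W : Set V)]
    (h : ∀ v ∈ W, (g.linear : V →ₗ[ℝ] V) v ∈ W) :
    ∃ β : (V ⧸ W) ≃ᵃ[ℝ] (V ⧸ W), (∀ x : V, W.mkQ (g x) = β (W.mkQ x)) ∧
      LinearMap.det (g.linear : V →ₗ[ℝ] V) =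
        LinearMap.det ((g.linear : V →ₗ[ℝ] V).restrict h) *
          LinearMap.det (β.linear : (V ⧸ W) →ₗ[ℝ] (V ⧸ W)) := by
  let f : (V ⧸ W) →ₗ[ℝ] (V ⧸ W) := W.mapQ W (g.linear : V →ₗ[ℝ] V) h
  have hs : Function.Surjective f := by
    intro y
    obtain ⟨x, rfl⟩ := W.mkQ_surjective y
    refine ⟨W.mkQ (g.linear.symm x), ?_⟩
    change W.mkQ (g.linear (g.linear.symm x)) = W.mkQ x
    rw [LinearEquiv.apply_symm_apply]
  have hi : Function.Injective f := LinearMap.injective_iff_surjective.2 hs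
  let fe : (V ⧸ W) ≃ₗ[ℝ] (V ⧸ W) := LinearEquiv.ofInjectiveEndo f hi
  refine ⟨fe.toAffineEquiv.trans (AffineEquiv.constVAdd ℝ (V ⧸ W) (W.mkQ (g 0))), fun x => ?_, ?_⟩
  · change W.mkQ (g x) = W.mkQ (g 0) + W.mkQ (g.linear x)
    rw [← map_add]
    congr 1
    have h1 := map_add' g 0 x
    rw [zero_add] at h1
    exact h1
  · rw [LinearMap.det_eq_det_mul_det W (g.linear : V →ₗ[ℝ] V) h]
    congr 1

end

namespace VecAct

variable {V : Type*} [NormedAddCommGroup V] [NormedSpace ℝ V] [FiniteDimensional ℝ V]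
  {Γ : Subgroup (V ≃ᵃ[ℝ] V)} {E : Type*} [NormedAddCommGroup E] [NormedSpace ℝ E]
  [FiniteDimensional ℝ E] (A : VecAct Γ E) {Ω : Set V} (H : Klein Γ Ω)

include H

/-- S-type. -/
theorem univ_of_slice (W : Submodule ℝ V) (hW : ∀ γ ∈ Γ, ∀ v ∈ W, (γ : V ≃ᵃ[ℝ] V).linear v ∈ W)
    (τ : E ≃ₗ[ℝ] (V ⧸ W)) (hτ : ∀ ξ x, W.mkQ (A.e ξ x) = W.mkQ x + τ ξ)
    (hdet : ∀ ξ, LinearMap.det ((A.e ξ).linear : V →ₗ[ℝ] V) = 1) (hd : finrank ℝ W ≤ 3) :
    Ω = univ := by
  have hcl : IsClosed (W : Set V) := Submodule.closed_of_finiteDimensional _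
  -- the slice parameter
  let s : V →ₗ[ℝ] E := (τ.symm : (V ⧸ W) →ₗ[ℝ] E).comp W.mkQ
  have hs : ∀ x, τ (s x) = W.mkQ x := fun x => τ.apply_symm_apply _
  have hsc : Continuous s := LinearMap.continuous_of_finiteDimensional s
  have hse : ∀ ξ x, s (A.e ξ x) = s x + ξ := by
    intro ξ x
    apply τ.injective
    rw [hs, map_add, hs, hτ]
  have hsW : ∀ x, s x = 0 ↔ x ∈ W := by
    intro x
    rw [← Submodule.ker_mkQ W, LinearMap.mem_ker, ← hs]
    simp
  let P : V → W := fun x => ⟨A.e (-(s x)) x, by rw [← hsW, hse, add_neg_cancel]⟩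
  have hP : ∀ x, (P x : V) = A.e (-(s x)) x := fun _ => rfl
  have hPx : ∀ x, x = A.e (s x) (P x) := by
    intro x
    rw [hP, ← A.e_add_apply, add_neg_cancel, A.e_zero_apply]
  have hPW : ∀ y : W, P y = y := by
    intro y
    apply Subtype.ext
    rw [hP, (hsW y).2 y.2, neg_zero, A.e_zero_apply]
  have hPe : ∀ ξ x, P (A.e ξ x) = P x := by
    intro ξ x
    apply Subtype.ext
    rw [hP, hP, hse, neg_add_rev, ← A.e_add_apply, add_comm (-ξ), neg_add_cancel_right]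
  have hPc : Continuous P := by
    refine Continuous.subtype_mk ?_ _
    exact A.cont.comp ((hsc.neg).prodMk continuous_id)
  refine A.univ_of_quot H (P := P) hPc ?_ (fun y => ⟨y, hPW y⟩) hPe ?_ ?_ hd
  · intro U hU
    have h1 : P '' U = Prod.snd '' ((fun p : E × W => A.e p.1 (p.2 : V)) ⁻¹' U) := by
      ext y
      constructor
      · rintro ⟨x, hx, rfl⟩
        refine ⟨(s x, P x), ?_, rfl⟩
        change A.e (s x) (P x) ∈ U
        rwa [← hPx]
      · rintro ⟨⟨ξ, y⟩, h, rfl⟩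
        refine ⟨A.e ξ y, h, ?_⟩
        rw [hPe, hPW]
    rw [h1]
    refine isOpenMap_snd _ (hU.preimage ?_)
    exact A.cont.comp (continuous_fst.prodMk (continuous_subtype_val.comp continuous_snd))
  · intro x y _ h
    refine ⟨s x - s y, ?_⟩
    conv_lhs => rw [hPx x, h]
    rw [hP, ← A.e_add_apply, sub_eq_add_neg]
  · intro γ hγ
    set g : V ≃ᵃ[ℝ] V := A.e (-(s (γ 0))) * γ with hg
    have hg0 : g 0 = P (γ 0) := rfl
    have helin : ∀ ξ v, W.mkQ ((A.e ξ).linear v) = W.mkQ v := by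
      intro ξ v
      have h1 := map_sub' (A.e ξ) v 0
      rw [sub_zero] at h1
      rw [← h1, map_sub, hτ, hτ, map_zero]
      abel
    have hgW : ∀ v ∈ W, (g.linear : V →ₗ[ℝ] V) v ∈ W := by
      intro v hv
      rw [← Submodule.ker_mkQ W, LinearMap.mem_ker]
      change W.mkQ ((A.e (-(s (γ 0)))).linear (γ.linear v)) = 0
      rw [helin, ← LinearMap.mem_ker, Submodule.ker_mkQ]
      exact hW γ hγ v hv
    obtain ⟨β, hβ, hβd⟩ := exists_restrict g W hgW (by rw [hg0]; exact (P (γ 0)).2)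
    refine ⟨β, ?_, ?_⟩
    · -- determinants
      have h1 : LinearMap.det (g.linear : V →ₗ[ℝ] V) =
          LinearMap.det ((g.linear : V →ₗ[ℝ] V).restrict hgW) *
          LinearMap.det (W.mapQ W (g.linear : V →ₗ[ℝ] V) hgW) :=
        LinearMap.det_eq_det_mul_det W (g.linear : V →ₗ[ℝ] V) hgW
      have h2 : |LinearMap.det (g.linear : V →ₗ[ℝ] V)| = 1 := by
        have h3 : (g.linear : V →ₗ[ℝ] V) = ((A.e (-(s (γ 0)))).linear : V →ₗ[ℝ] V) *
            (γ.linear : V →ₗ[ℝ] V) := rfl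
        rw [h3, map_mul, hdet, one_mul]
        exact H.vol γ hγ
      have h4 : LinearMap.det (W.mapQ W (g.linear : V →ₗ[ℝ] V) hgW) =
          LinearMap.det (A.ad ⟨γ, hγ⟩ : E →ₗ[ℝ] E) := by
        rw [← LinearMap.det_conj _ τ.symm]
        congr 1
        apply LinearMap.ext
        intro ξ
        change τ.symm (W.mapQ W (g.linear : V →ₗ[ℝ] V) hgW (τ ξ)) = A.ad ⟨γ, hγ⟩ ξ
        rw [LinearEquiv.symm_apply_eq]
        -- `τ ξ = mkQ (e ξ y - y)`
        set y : V := γ.symm 0 with hy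
        have h5 : τ ξ = W.mkQ (A.e ξ y - y) := by
          rw [map_sub, hτ]
          abel
        have h6 : τ (A.ad ⟨γ, hγ⟩ ξ) = W.mkQ (A.e (A.ad ⟨γ, hγ⟩ ξ) 0 - 0) := by
          rw [map_sub, hτ]
          abel
        rw [h5, h6, A.e_ad]
        change W.mkQ (g.linear (A.e ξ y - y)) = W.mkQ (γ (A.e ξ (γ.symm 0)) - 0)
        have h7 : g.linear (A.e ξ y - y) = (A.e (-(s (γ 0)))).linear (γ.linear (A.e ξ y - y)) :=
          rfl
        rw [h7, helin, ← KT.map_sub', hy, AffineEquiv.apply_symm_apply]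
      rw [hβd]
      have h8 := A.abs_det_ad H ⟨γ, hγ⟩
      rw [h1, abs_mul, h4, h8, mul_one] at h2
      exact h2
    · intro x
      apply Subtype.ext
      rw [hβ]
      have h1 : P (γ x) = P (γ (P x)) := by
        conv_lhs => rw [hPx x]
        have h2 : γ (A.e (s x) (P x)) = A.e (A.ad ⟨γ, hγ⟩ (s x)) (γ (P x)) := by
          rw [A.e_ad]
          change _ = γ (A.e (s x) (γ.symm (γ (P x))))
          rw [AffineEquiv.symm_apply_apply]
        rw [h2, hPe]
      rw [h1, hP]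
      change _ = A.e (-(s (γ 0))) (γ (P x))
      have h3 : s (γ (P x)) = s (γ 0) := by
        have h4 := map_sub' γ (P x : V) 0
        rw [sub_zero] at h4
        rw [← sub_eq_zero, ← map_sub, h4, hsW]
        exact hW γ hγ _ (P x).2
      rw [h3]

/-- Q-type. -/
theorem univ_of_orbits (W : Submodule ℝ V) (hW : ∀ γ ∈ Γ, ∀ v ∈ W, (γ : V ≃ᵃ[ℝ] V).linear v ∈ W)
    (h1 : ∀ ξ x, A.e ξ x - x ∈ W) (h2 : ∀ x y, y - x ∈ W → ∃ ξ, y = A.e ξ x)
    (hdet : ∀ γ ∈ Γ, ∀ h : (∀ v ∈ W, ((γ : V ≃ᵃ[ℝ] V).linear : V →ₗ[ℝ] V) v ∈ W),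
      |LinearMap.det ((γ.linear : V →ₗ[ℝ] V).restrict h)| = 1)
    (hd : finrank ℝ V ≤ finrank ℝ W + 3) : Ω = univ := by
  have hcl : IsClosed (W : Set V) := Submodule.closed_of_finiteDimensional _
  have hd' : finrank ℝ (V ⧸ W) ≤ 3 := by
    have := Submodule.finrank_quotient_add_finrank W
    omega
  refine A.univ_of_quot H (P := W.mkQ) (LinearMap.continuous_of_finiteDimensional _)
    (LinearMap.isOpenMap_of_finiteDimensional _ W.mkQ_surjective) W.mkQ_surjective ?_ ?_ ?_ hd'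
  · intro ξ x
    rw [← sub_eq_zero, ← map_sub, ← LinearMap.mem_ker, Submodule.ker_mkQ]
    exact h1 ξ x
  · intro x y _ h
    refine h2 y x ?_
    rw [← Submodule.ker_mkQ W, LinearMap.mem_ker, map_sub, h, sub_self]
  · intro γ hγ
    obtain ⟨β, hβ, hβd⟩ := exists_quot γ W (hW γ hγ)
    refine ⟨β, ?_, hβ⟩
    have h3 := H.vol γ hγ
    rw [hβd, abs_mul, hdet γ hγ, one_mul] at h3
    exact h3

end VecAct

end Pool.Agent.Helper77.K4
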