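import Pool.Agent.Helper77.KT.Final

/-!
# A vector group normalised by a Kleinian group: saturation
-/

set_option autoImplicit false

open Set MeasureTheory Module Metric Filter Topology
open scoped Pointwise

namespace Pool.Agent.Helper77.K4

open Pool.Agent.Helper77.KT

/-- A vector group `E` acting on `V` by affine maps, normalised by `Γ`, with a lattice `L` which acts
through `Γ`. -/
structure VecAct {V : Type*} [NormedAddCommGroup V] [NormedSpace ℝ V]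
    (Γ : Subgroup (V ≃ᵃ[ℝ] V)) (E : Type*) [NormedAddCommGroup E] [NormedSpace ℝ E] where
  /-- the action -/
  e : E → (V ≃ᵃ[ℝ] V)
  e_add : ∀ ξ η, e (ξ + η) = e ξ * e η
  cont : Continuous fun p : E × V => e p.1 p.2
  /-- the lattice -/
  L : Submodule ℤ E
  span : Submodule.span ℝ (L : Set E) = ⊤
  mem : ∀ l ∈ L, e l ∈ Γ
  inj : ∀ l ∈ L, e l = 1 → l = 0
  /-- the action of `Γ` -/
  ad : Γ →* (E ≃ₗ[ℝ] E)
  e_ad : ∀ (γ : Γ) ξ, e (ad γ ξ) = γ * e ξ * (γ : V ≃ᵃ[ℝ] V)⁻¹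
  L_ad : ∀ γ, ∀ l ∈ L, ad γ l ∈ L

namespace VecAct

variable {V : Type*} [NormedAddCommGroup V] [NormedSpace ℝ V]
  {Γ : Subgroup (V ≃ᵃ[ℝ] V)} {E : Type*} [NormedAddCommGroup E] [NormedSpace ℝ E]
  (A : VecAct Γ E)

theorem e_zero : A.e 0 = 1 := by
  have h := A.e_add 0 0
  rw [add_zero] at h
  exact (left_eq_mul.1 h)

theorem e_neg (ξ : E) : A.e (-ξ) = (A.e ξ)⁻¹ := by
  rw [eq_inv_iff_mul_eq_one, ← A.e_add, neg_add_cancel, A.e_zero]

theorem e_add_apply (ξ η : E) (x : V) : A.e (ξ + η) x = A.e ξ (A.e η x) := by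
  rw [A.e_add]
  rfl

theorem e_zero_apply (x : V) : A.e 0 x = x := by
  rw [A.e_zero]
  rfl

theorem e_neg_apply (ξ : E) (x : V) : A.e (-ξ) (A.e ξ x) = x := by
  rw [← A.e_add_apply, neg_add_cancel, A.e_zero_apply]

theorem e_inj {l l' : E} (hl : l ∈ A.L) (hl' : l' ∈ A.L) (h : A.e l = A.e l') : l = l' := by
  refine sub_eq_zero.1 (A.inj _ (A.L.sub_mem hl hl') ?_)
  rw [sub_eq_add_neg, A.e_add, A.e_neg, h, mul_inv_cancel]

theorem e_nsmul_apply {ξ : E} {x : V} (h : A.e ξ x = x) (n : ℕ) : A.e (n • ξ) x = x := by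
  induction n with
  | zero => rw [zero_smul, A.e_zero_apply]
  | succ n ih => rw [succ_nsmul, A.e_add_apply, h, ih]

/-- Uniform continuity near a compact set. -/
theorem exists_small {K U : Set V} (hK : IsCompact K) (hU : IsOpen U) (hKU : K ⊆ U) :
    ∃ δ > 0, ∀ ξ : E, ‖ξ‖ ≤ δ → ∀ y ∈ K, A.e ξ y ∈ U := by
  have h1 : IsOpen {p : E × V | A.e p.1 p.2 ∈ U} := hU.preimage A.cont
  have h2 : ({0} : Set E) ×ˢ K ⊆ {p : E × V | A.e p.1 p.2 ∈ U} := by
    rintro ⟨ξ, y⟩ ⟨hξ, hy⟩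
    rw [mem_singleton_iff] at hξ
    change A.e ξ y ∈ U
    simp only at hξ
    rw [hξ, A.e_zero_apply]
    exact hKU hy
  obtain ⟨u, v, hu, hv, h0u, hKv, huv⟩ := generalized_tube_lemma isCompact_singleton hK h1 h2
  obtain ⟨δ, hδ, hδu⟩ := Metric.nhds_basis_closedBall.mem_iff.1
    (hu.mem_nhds (h0u (mem_singleton _)))
  refine ⟨δ, hδ, fun ξ hξ y hy => ?_⟩
  have h3 : (ξ, y) ∈ {p : E × V | A.e p.1 p.2 ∈ U} := huv ⟨hδu (by simpa using hξ), hKv hy⟩
  exact h3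

/-- Uniform displacement on a compact set. -/
theorem exists_small' {K : Set V} (hK : IsCompact K) {ε : ℝ} (hε : 0 < ε) :
    ∃ δ > 0, ∀ ξ : E, ‖ξ‖ ≤ δ → ∀ y ∈ K, dist (A.e ξ y) y < ε := by
  have h1 : IsOpen {p : E × V | dist (A.e p.1 p.2) p.2 < ε} :=
    isOpen_lt (A.cont.dist continuous_snd) continuous_const
  have h2 : ({0} : Set E) ×ˢ K ⊆ {p : E × V | dist (A.e p.1 p.2) p.2 < ε} := by
    rintro ⟨ξ, y⟩ ⟨hξ, hy⟩
    rw [mem_singleton_iff] at hξ
    change dist (A.e ξ y) y < ε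
    simp only at hξ
    rw [hξ, A.e_zero_apply, dist_self]
    exact hε
  obtain ⟨u, v, hu, hv, h0u, hKv, huv⟩ := generalized_tube_lemma isCompact_singleton hK h1 h2
  obtain ⟨δ, hδ, hδu⟩ := Metric.nhds_basis_closedBall.mem_iff.1
    (hu.mem_nhds (h0u (mem_singleton _)))
  refine ⟨δ, hδ, fun ξ hξ y hy => ?_⟩
  have h3 : (ξ, y) ∈ {p : E × V | dist (A.e p.1 p.2) p.2 < ε} :=
    huv ⟨hδu (by simpa using hξ), hKv hy⟩
  exact h3

section

variable [FiniteDimensional ℝ V] [FiniteDimensional ℝ E] {Ω : Set V} (H : Klein Γ Ω)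

include H

theorem discrete : DiscreteTopology A.L := by
  obtain ⟨x, hx⟩ := H.conn.nonempty
  obtain ⟨r, hr, hrΩ⟩ := Metric.nhds_basis_closedBall.mem_iff.1 (H.isOpen.mem_nhds hx)
  obtain ⟨δ, hδ, hδx⟩ := A.exists_small (isCompact_singleton (x := x)) isOpen_ball
    (by rw [singleton_subset_iff]; exact mem_ball_self hr)
  have hS := H.proper _ hrΩ (isCompact_closedBall x r)
  have hf : ((A.L : Set E) ∩ closedBall 0 δ).Finite := by
    refine Set.Finite.of_finite_image (f := A.e) (hS.subset ?_) ?_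
    · rintro _ ⟨l, ⟨hl, hlδ⟩, rfl⟩
      refine ⟨A.mem l hl, A.e l x, ⟨x, mem_closedBall_self hr.le, rfl⟩, ?_⟩
      exact ball_subset_closedBall (hδx l (by simpa using hlδ) x rfl)
    · exact fun l hl l' hl' h => A.e_inj hl.1 hl'.1 h
  have h1 : (((A.L : Set E) ∩ closedBall 0 δ) \ {0}).Finite := hf.subset sdiff_subset
  have h2 : IsOpen ({0} : Set A.L) := by
    have h3 : IsOpen (ball (0 : E) δ \ (((A.L : Set E) ∩ closedBall 0 δ) \ {0})) :=
      isOpen_ball.sdiff h1.isClosed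
    have h4 := h3.preimage (continuous_subtype_val : Continuous ((↑) : A.L → E))
    convert h4
    ext x
    simp only [mem_singleton_iff, mem_preimage, Set.mem_sdiff, mem_inter_iff, SetLike.mem_coe,
      SetLike.coe_mem, true_and, not_and, not_not]
    constructor
    · rintro rfl
      exact ⟨mem_ball_self hδ, fun _ => rfl⟩
    · rintro ⟨hb, h⟩
      exact Subtype.ext (h (ball_subset_closedBall hb))
  exact discreteTopology_of_isOpen_singleton_zero h2

theorem zlattice : letI := A.discrete H; IsZLattice ℝ A.L :=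
  letI := A.discrete H
  ⟨A.span⟩

theorem isClosed_L : IsClosed (A.L : Set E) := by
  have := A.discrete H
  have : DiscreteTopology A.L.toAddSubgroup := this
  exact AddSubgroup.isClosed_of_discrete (H := A.L.toAddSubgroup)

/-- bounded representatives modulo the lattice -/
theorem exists_rep : ∃ F : Set E, IsCompact F ∧ 0 ∈ F ∧ ∀ ξ, ∃ l ∈ A.L, ξ - l ∈ F := by
  have := A.discrete H
  have := A.zlattice H
  have : Module.Finite ℤ A.L := ZLattice.module_finite ℝ A.L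
  have : Module.Free ℤ A.L := ZLattice.module_free ℝ A.L
  let b := Module.Free.chooseBasis ℤ A.L
  let B := b.ofZLatticeBasis ℝ A.L
  have hb : Bornology.IsBounded (ZSpan.fundamentalDomain B) := ZSpan.fundamentalDomain_isBounded _
  refine ⟨closure (ZSpan.fundamentalDomain B) ∪ {0}, hb.isCompact_closure.union
    isCompact_singleton, Or.inr rfl, fun ξ => ?_⟩
  have h1 : Submodule.span ℤ (range B) = A.L := b.ofZLatticeBasis_span ℝ A.L
  refine ⟨(ZSpan.floor B ξ : Submodule.span ℤ (range B)), h1.le (ZSpan.floor B ξ).2,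
    Or.inl (subset_closure ?_)⟩
  have h2 := ZSpan.fract_mem_fundamentalDomain B ξ
  rwa [ZSpan.fract_apply] at h2

theorem abs_det_ad (γ : Γ) : |LinearMap.det (A.ad γ : E →ₗ[ℝ] E)| = 1 := by
  have := A.discrete H
  have := A.zlattice H
  refine abs_det_eq_one A.L (A.ad γ) (fun l hl => A.L_ad γ l hl) fun l hl => ?_
  have h1 : (A.ad γ).symm = A.ad γ⁻¹ := by
    rw [map_inv]
    rfl
  rw [h1]
  exact A.L_ad _ l hl

/-- The set of `ξ` which move `x` into a given compact subset of `Ω` is bounded. -/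
theorem bounded_orbit {K : Set V} (hK : IsCompact K) (hKΩ : K ⊆ Ω) (x : V) :
    Bornology.IsBounded {ξ : E | A.e ξ x ∈ K} := by
  obtain ⟨ε, hε, hεΩ⟩ := hK.exists_cthickening_subset_open H.isOpen hKΩ
  have hK'c : IsCompact (cthickening ε K) := hK.cthickening
  obtain ⟨δ, hδ, hδK⟩ := A.exists_small hK (isOpen_thickening (δ := ε)) (self_subset_thickening hε K)
  have hS := H.proper _ hεΩ hK'c
  set S := {γ : V ≃ᵃ[ℝ] V | γ ∈ Γ ∧
    (((fun x => γ x) '' (cthickening ε K)) ∩ cthickening ε K).Nonempty} with hSdef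
  set B := {ξ : E | A.e ξ x ∈ K} with hB
  have hLS : {l : E | l ∈ A.L ∧ A.e l ∈ S}.Finite := by
    refine Set.Finite.of_finite_image (f := A.e) (hS.subset ?_) ?_
    · rintro _ ⟨l, hl, rfl⟩
      exact hl.2
    · exact fun l hl l' hl' h => A.e_inj hl.1 hl'.1 h
  have hkey : ∀ ξ ∈ B, ∀ η ∈ B, ∀ l ∈ A.L, ‖η - ξ - l‖ ≤ δ → A.e l ∈ S := by
    intro ξ hξ η hη l hl h
    refine ⟨A.mem l hl, A.e η x, ⟨A.e (η - ξ - l) (A.e ξ x), ?_, ?_⟩, ?_⟩
    · exact thickening_subset_cthickening _ _ (hδK _ h _ hξ)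
    · change A.e l (A.e (η - ξ - l) (A.e ξ x)) = A.e η x
      rw [← A.e_add_apply, ← A.e_add_apply]
      congr 2
      abel
    · exact self_subset_cthickening K hη
  obtain ⟨F, hF, -, hrep⟩ := A.exists_rep H
  obtain ⟨t, -, htf, htF⟩ := hF.elim_finite_subcover_image (b := F)
    (c := fun c => ball c (δ / 2)) (fun c _ => isOpen_ball) (fun c hc =>
      mem_biUnion hc (mem_ball_self (by positivity)))
  have hcov : B ⊆ ⋃ c ∈ t, {ξ | ξ ∈ B ∧ ∃ l ∈ A.L, ξ - l ∈ ball c (δ / 2)} := by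
    intro ξ hξ
    obtain ⟨l, hl, hlF⟩ := hrep ξ
    obtain ⟨c, hc, hcl⟩ := mem_iUnion₂.1 (htF hlF)
    exact mem_biUnion hc ⟨hξ, l, hl, hcl⟩
  refine Bornology.IsBounded.subset ?_ hcov
  rw [Bornology.isBounded_biUnion htf]
  intro c _
  rcases {ξ | ξ ∈ B ∧ ∃ l ∈ A.L, ξ - l ∈ ball c (δ / 2)}.eq_empty_or_nonempty with h0 | ⟨ξ₀, hξ₀, l₀,
    hl₀, hl₀c⟩
  · rw [h0]
    exact Bornology.isBounded_empty
  · -- all elements are within `ξ₀ + L_S + ball δ`
    have h1 : Bornology.IsBounded (({ξ₀} : Set E) + ({l : E | l ∈ A.L ∧ A.e l ∈ S} +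
        closedBall (0 : E) δ)) :=
      (Bornology.isBounded_singleton).add (hLS.isBounded.add isBounded_closedBall)
    refine h1.subset ?_
    rintro ξ ⟨hξ, l, hl, hlc⟩
    have h2 : ‖ξ - ξ₀ - (l - l₀)‖ ≤ δ := by
      have h3 : ξ - ξ₀ - (l - l₀) = (ξ - l - c) - (ξ₀ - l₀ - c) := by abel
      rw [mem_ball, dist_eq_norm] at hlc hl₀c
      rw [h3]
      refine (norm_sub_le _ _).trans ?_
      linarith
    refine ⟨ξ₀, rfl, ξ - ξ₀, ⟨l - l₀, ⟨A.L.sub_mem hl hl₀, ?_⟩, ξ - ξ₀ - (l - l₀), ?_, ?_⟩, ?_⟩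
    · exact hkey ξ₀ hξ₀ ξ hξ _ (A.L.sub_mem hl hl₀) h2
    · simpa using h2
    · change (l - l₀) + (ξ - ξ₀ - (l - l₀)) = ξ - ξ₀
      abel
    · change ξ₀ + (ξ - ξ₀) = ξ
      abel

/-- `E` acts freely on `Ω`. -/
theorem free {x : V} (hx : x ∈ Ω) {ξ : E} (h : A.e ξ x = x) : ξ = 0 := by
  by_contra hne
  have h1 := A.bounded_orbit H (isCompact_singleton (x := x)) (singleton_subset_iff.2 hx) x
  obtain ⟨R, hR⟩ := h1.exists_norm_le
  obtain ⟨n, hn⟩ := exists_nat_gt (R / ‖ξ‖)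
  have h2 := hR (n • ξ) (A.e_nsmul_apply h n)
  rw [← Nat.cast_smul_eq_nsmul ℝ, norm_smul, Real.norm_natCast] at h2
  have h3 : 0 < ‖ξ‖ := norm_pos_iff.2 hne
  rw [div_lt_iff₀ h3] at hn
  linarith

end

end VecAct

end Pool.Agent.Helper77.K4
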